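import Pool.Agent.SA33.Assemble

set_option autoImplicit false

/-! The lifting lemma for `PG`, for use with GLUE+. -/

namespace Pool.Agent.SA33

open SimpleGraph Pool.Agent.SA97

theorem no_triangle {τ : Type*} {T : SimpleGraph τ} (hT : T.IsAcyclic) {x y z : τ}
    (h1 : T.Adj x y) (h2 : T.Adj y z) (h3 : T.Adj x z) : False := by
  let p : T.Walk x z := .cons h1 (.cons h2 .nil)
  let q : T.Walk x z := .cons h3 .nil
  have hp : p.IsPath := by
    simp [p, SimpleGraph.Walk.cons_isPath_iff, h1.ne, h2.ne, h3.ne]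
  have hq : q.IsPath := by
    simp [q, SimpleGraph.Walk.cons_isPath_iff, h3.ne]
  have h := hT.path_unique ⟨p, hp⟩ ⟨q, hq⟩
  have h5 : p.length = q.length := by
    have := congrArg Subtype.val h
    simp only at this
    rw [this]
  have h6 : (2 : ℕ) = 1 := h5
  omega

theorem exists_nonadj {τ : Type*} {T : SimpleGraph τ} (hT : T.IsAcyclic) (htw : TwinFree T)
    {u v w : τ} (huv : T.Adj u v) (hwu : w ≠ u) (hwv : w ≠ v) :
    ∃ u v w, T.Adj u v ∧ ¬ T.Adj u w ∧ ¬ T.Adj v w := by
  by_contra hcon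
  push Not at hcon
  have key : ∀ u v w, T.Adj u v → w ≠ v → T.Adj u w → False := by
    intro u v w huv hwv huw
    have hvw : ¬ T.Adj v w := fun h => no_triangle hT huv h huw
    have h1 : ∀ z, T.Adj w z → z = u := by
      intro z hz
      by_contra hzu
      by_cases hzv : T.Adj z v
      · exact hwv (no_c4 hT (Ne.symm hzu) huw.symm hz huv.symm hzv.symm)
      · exact hvw (hcon z w v hz.symm hzv).symm
    have h2 : ∀ z, T.Adj v z → z = u := by
      intro z hz
      by_contra hzu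
      by_cases hzw : T.Adj z w
      · exact hwv (no_c4 hT (Ne.symm hzu) huw.symm hzw.symm huv.symm hz)
      · exact hvw (hcon z v w hz.symm hzw)
    apply hwv
    apply htw
    intro z
    constructor
    · intro hz
      rw [h1 z hz]; exact huv.symm
    · intro hz
      rw [h2 z hz]; exact huw.symm
  by_cases h : T.Adj u w
  · exact key u v w huv hwv h
  · exact key v u w huv.symm hwu (hcon u v w huv h)

theorem exists_adj_of_connected {τ : Type*} {T : SimpleGraph τ} (hT : T.Connected) {a b : τ}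
    (hab : a ≠ b) : ∃ c, T.Adj a c := by
  obtain ⟨p⟩ := hT.preconnected a b
  cases p with
  | nil => exact absurd rfl hab
  | cons h _ => exact ⟨_, h⟩

theorem TwinMap.acyclic' {m : ℕ} {T : SimpleGraph (Fin m)} {τ' : Type} {T' : SimpleGraph τ'}
    {π : Fin m → τ'} (h : TwinMap T T' π) : T'.IsAcyclic := by
  obtain ⟨g, hg⟩ := h.surj.hasRightInverse
  let f : T' ↪g T := ⟨⟨g, hg.injective⟩, by
    intro a b
    change T.Adj (g a) (g b) ↔ _
    rw [h.adj, hg, hg]⟩
  exact h.tree.isAcyclic.comap f.toHom f.injective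

theorem TwinMap.connected' {m : ℕ} {T : SimpleGraph (Fin m)} {τ' : Type} {T' : SimpleGraph τ'}
    {π : Fin m → τ'} (h : TwinMap T T' π) : T'.Connected := by
  let f : T →g T' := ⟨π, fun {a b} hab => (h.adj a b).1 hab⟩
  exact h.tree.connected.map f h.surj

theorem TwinMap.tree' {m : ℕ} {T : SimpleGraph (Fin m)} {τ' : Type} {T' : SimpleGraph τ'}
    {π : Fin m → τ'} (h : TwinMap T T' π) : T'.IsTree :=
  ⟨h.connected', h.acyclic'⟩

theorem TwinMap.finite' {m : ℕ} {T : SimpleGraph (Fin m)} {τ' : Type} {T' : SimpleGraph τ'}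
    {π : Fin m → τ'} (h : TwinMap T T' π) : Finite τ' := Finite.of_surjective π h.surj

/-- Three vertices of `T'` in special position. -/
theorem TwinMap.exists_nonadj {m : ℕ} {T : SimpleGraph (Fin m)} {τ' : Type}
    {T' : SimpleGraph τ'} {π : Fin m → τ'} (h : TwinMap T T' π) (h3 : 3 ≤ Nat.card τ') :
    ∃ u v w : Fin m, T.Adj u v ∧ ¬ T.Adj u w ∧ ¬ T.Adj v w := by
  classical
  have := h.finite'
  let _ : Fintype τ' := Fintype.ofFinite τ'
  rw [Nat.card_eq_fintype_card] at h3
  have : Nontrivial τ' := Fintype.one_lt_card_iff_nontrivial.1 (by omega)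
  obtain ⟨a, b, hab⟩ := exists_pair_ne τ'
  obtain ⟨c, hc⟩ := exists_adj_of_connected h.connected' hab
  have hex : ∃ w, w ≠ a ∧ w ≠ c := by
    by_contra hcon
    push Not at hcon
    have h4 : (Finset.univ : Finset τ') ⊆ {a, c} := by
      intro w _
      rw [Finset.mem_insert, Finset.mem_singleton]
      by_cases hw : w = a
      · exact Or.inl hw
      · exact Or.inr (hcon w hw)
    have h5 := Finset.card_le_card h4
    have h6 : ({a, c} : Finset τ').card ≤ 2 := Finset.card_le_two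
    rw [Finset.card_univ] at h5
    omega
  obtain ⟨w, hwa, hwc⟩ := hex
  obtain ⟨u, v, w, h1, h2, h3⟩ := Pool.Agent.SA33.exists_nonadj h.acyclic' h.twinFree hc hwa hwc
  obtain ⟨u, rfl⟩ := h.surj u
  obtain ⟨v, rfl⟩ := h.surj v
  obtain ⟨w, rfl⟩ := h.surj w
  exact ⟨u, v, w, (h.adj _ _).2 h1, fun h' => h2 ((h.adj _ _).1 h'),
    fun h' => h3 ((h.adj _ _).1 h')⟩

/-- Small complete graphs belong to the class. -/
theorem inC_complete {m : ℕ} {T : SimpleGraph (Fin m)} {u v w : Fin m} (huv : T.Adj u v)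
    (huw : ¬ T.Adj u w) (hvw : ¬ T.Adj v w) {k l : ℕ} (hl : l < k) :
    InC T k (⊤ : SimpleGraph (Fin l)) := by
  have h1 : u ≠ w := by
    intro h
    rw [← h] at hvw
    exact hvw huv.symm
  refine ⟨⟨fun f => ?_⟩, ⟨fun f => ?_⟩⟩
  · exact huw (f.map_adj_iff.1 (f.injective.ne h1))
  · have := Fintype.card_le_of_injective _ f.injective
    rw [Fintype.card_fin, Fintype.card_fin] at this
    omega

/-- LIFTING: a rooted graph which is good (up to stripping) for `T'` lifts to a good rooted graph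
for `T`. -/
theorem pg_lift {m : ℕ} {T : SimpleGraph (Fin m)} {τ' : Type} {T' : SimpleGraph τ'}
    {π : Fin m → τ'} (h : TwinMap T T' π) (h3 : 3 ≤ Nat.card τ') {k : ℕ} (hk : 3 ≤ k)
    (hns : ¬ Splittable T k) {σ' : Type} {S' : SimpleGraph σ'} {s' : σ'} (hP : PG T' k S' s')
    {σ : Type} [Finite σ] (S : SimpleGraph σ) (hS : S.IsAcyclic) (s : σ) (w : σ → σ')
    (hw : Function.Surjective w) (hadj : ∀ x y, S.Adj x y ↔ S'.Adj (w x) (w y))
    (hs : ∀ x, w x = s' ↔ x = s) : Good T k S s := by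
  obtain ⟨a, b, c, h1, h2, h4⟩ := h.exists_nonadj h3
  refine PG.transfer hk h.tree.connected hns (inC_complete h1 h2 h4 (by omega)) π h.surj h.adj
    h.twinFree h1 h2 h4 hP S s w hw hadj hs ?_
  intro x y z z' hzz hz hz' hxy
  obtain ⟨p, rfl⟩ := hw z
  obtain ⟨q, rfl⟩ := hw z'
  have hpq : p ≠ q := fun h => hzz (by rw [h])
  refine no_c4 hS hpq ((hadj _ _).2 hz) ((hadj _ _).2 hz') ((hadj _ _).2 ?_) ((hadj _ _).2 ?_)
  · rw [← hxy]; exact hz
  · rw [← hxy]; exact hz'

end Pool.Agent.SA33
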