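import Pool.Agent.SA33.Half
import Pool.Agent.SA36.Case2

set_option autoImplicit false

/-! The edge of helper36's theorem has two nonleaf ends; `EdgeGood` for big trees. -/

namespace Pool.Agent.SA33

open SimpleGraph Pool.Agent.SA97 Pool.Agent.SA36

section

variable {τ : Type*} [Finite τ] {T : SimpleGraph τ}

theorem hf_eq_of_leaf (hT : T.IsAcyclic) {a b : τ} (hab : T.Adj a b)
    (h : ∀ x, x ≠ b → ¬ T.Adj a x) {v : τ} (hv : v ∈ hf T a b) : v = a := by
  refine hf_induction (p := fun v => v = a) rfl ?_ hv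
  rintro v w - rfl hvw hw
  by_cases hwb : w = b
  · rw [hwb] at hw
    exact absurd hw (not_mem_hf hT hab)
  · exact absurd hvw (h w hwb)

theorem nonleaf_of_ncard (hT : T.IsAcyclic) {a b : τ} (hab : T.Adj a b)
    (h : 2 ≤ (hf T a b).ncard) : ∃ x, x ≠ b ∧ T.Adj a x := by
  by_contra hcon
  push Not at hcon
  have h1 : hf T a b ⊆ {a} := fun v hv => hf_eq_of_leaf hT hab hcon hv
  have h2 := Set.ncard_le_ncard h1 (Set.toFinite _)
  rw [Set.ncard_singleton] at h2
  omega

theorem leaf_of_ncard (hT : T.IsAcyclic) {a b : τ} (hab : T.Adj a b)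
    (h : (hf T a b).ncard ≤ 1) {x : τ} (hx : T.Adj a x) : x = b := by
  rcases hf_closed hT hab (self_mem_hf a b) hx with h1 | h1
  · rw [Set.ncard_le_one (Set.toFinite _)] at h
    exact absurd (h a (self_mem_hf a b) x h1) hx.ne
  · exact h1.2

theorem exists_good_edge' (hT : T.IsTree) (htw : TwinFree T) (hn : 11 ≤ Nat.card τ)
    {col : τ → Bool} (hcol : ∀ x y, T.Adj x y → col x ≠ col y) :
    ∃ a b, T.Adj a b ∧ ¬ BadEdge T col a b ∧ ¬ BadEdge T col b a ∧
      (∃ x, x ≠ b ∧ T.Adj a x) ∧ (∃ y, y ≠ a ∧ T.Adj b y) := by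
  by_cases hex : ∃ a b, T.Adj a b ∧ 5 ≤ (hf T a b).ncard ∧ 5 ≤ (hf T b a).ncard
  · obtain ⟨a, b, hab, h1, h2⟩ := hex
    have key : ∀ a b, T.Adj a b → 5 ≤ (hf T b a).ncard → ¬ BadEdge T col a b := by
      rintro a b hab h ⟨P, R, Rt, ψ, hb, hinj, hmap, -⟩
      have h1 := outside_ge hT hab hinj hmap
      have h2 := hb.outside_le hT htw
      omega
    exact ⟨a, b, hab, key a b hab h2, key b a hab.symm h1,
      nonleaf_of_ncard hT.2 hab (by omega), nonleaf_of_ncard hT.2 hab.symm (by omega)⟩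
  · have hno : ∀ a b, T.Adj a b → (hf T a b).ncard ≤ 4 ∨ (hf T b a).ncard ≤ 4 := by
      intro a b hab
      by_contra hcon
      rw [not_or] at hcon
      exact hex ⟨a, b, hab, by omega, by omega⟩
    obtain ⟨r, hr⟩ := exists_center hT (by omega) hno
    have hne : {b | T.Adj b r}.Nonempty := by
      have h1 : 1 < (Set.univ : Set τ).ncard := by
        rw [Set.ncard_univ]; omega
      obtain ⟨x, y, -, -, hxy⟩ := (Set.one_lt_ncard_iff (Set.toFinite _)).1 h1
      by_cases hx : x = r
      · obtain ⟨b, hb, -⟩ := branch_cover hT r y (fun h => hxy (hx.trans h.symm))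
        exact ⟨b, hb⟩
      · obtain ⟨b, hb, -⟩ := branch_cover hT r x hx
        exact ⟨b, hb⟩
    obtain ⟨b1, hb1, hmax⟩ := Set.exists_max_image {b | T.Adj b r} (fun b => (hf T b r).ncard)
      (Set.toFinite _) hne
    have hadd := hf_ncard_add hT (hb1 : T.Adj b1 r)
    have hr1 := hr b1 hb1
    refine ⟨r, b1, (hb1 : T.Adj b1 r).symm, ?_, ?_, nonleaf_of_ncard hT.2 (hb1 : T.Adj b1 r).symm
      (by omega), nonleaf_of_ncard hT.2 hb1 ?_⟩
    · exact case2 hT htw (by omega) hr hb1 (fun b hb => hmax b hb) hno hcol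
    · rintro ⟨P, R, Rt, ψ, hb, hinj, hmap, -⟩
      have h1 := outside_ge hT hb1 hinj hmap
      have h2 : {z | z ∉ P ∧ z ∉ R ∧ z ∉ Rt} = {x | x ∈ P ∨ x ∈ R ∨ x ∈ Rt}ᶜ := by
        ext z
        simp only [Set.mem_ofPred_eq, Set.mem_compl_iff, not_or]
      have h3 := Set.ncard_add_ncard_compl {x | x ∈ P ∨ x ∈ R ∨ x ∈ Rt}
      have h4 : P.ncard ≤ {x | x ∈ P ∨ x ∈ R ∨ x ∈ Rt}.ncard :=
        Set.ncard_le_ncard (fun x hx => Or.inl hx) (Set.toFinite _)
      have h5 : (P ∪ R).ncard ≤ {x | x ∈ P ∨ x ∈ R ∨ x ∈ Rt}.ncard := by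
        apply Set.ncard_le_ncard _ (Set.toFinite _)
        rintro x (hx | hx)
        · exact Or.inl hx
        · exact Or.inr (Or.inl hx)
      have h6 : (P ∪ R).ncard = P.ncard + R.ncard := by
        apply Set.ncard_union_eq _ (Set.toFinite _) (Set.toFinite _)
        rw [Set.disjoint_left]
        exact hb.dPR
      have h7 := hr b1 hb1
      have h8 := hf_ncard_add hT (hb1 : T.Adj b1 r)
      have h9 := hb.cP
      have h10 := hb.cR
      rw [h2] at h1
      omega
    · by_contra hlt
      have hle : ∀ b, T.Adj b r → (hf T b r).ncard ≤ 1 := by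
        intro b hb
        have h1 : (hf T b r).ncard ≤ (hf T b1 r).ncard := hmax b hb
        omega
      have hleaf : ∀ u, u ≠ r → ∀ z, T.Adj u z ↔ z = r := by
        intro u hu z
        obtain ⟨b, hb, hub⟩ := branch_cover hT r u hu
        have h1 := hle b hb
        have h2 : u = b := by
          rw [Set.ncard_le_one (Set.toFinite _)] at h1
          exact h1 u hub b (self_mem_hf b r)
        rw [h2]
        constructor
        · intro h3
          exact leaf_of_ncard hT.2 hb (hle b hb) h3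
        · rintro rfl
          exact hb
      have hall : ∀ u v, u ≠ r → v ≠ r → u = v := by
        intro u v hu hv
        apply htw
        intro z
        rw [hleaf u hu, hleaf v hv]
      have hcard : (Set.univ : Set τ).ncard ≤ ({r} ∪ {x | x ≠ r} : Set τ).ncard := by
        apply Set.ncard_le_ncard _ (Set.toFinite _)
        intro x _
        by_cases hx : x = r
        · exact Or.inl hx
        · exact Or.inr hx
      have h2 := Set.ncard_union_le ({r} : Set τ) {x | x ≠ r}
      have h3 : ({x | x ≠ r} : Set τ).ncard ≤ 1 := by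
        rw [Set.ncard_le_one (Set.toFinite _)]
        intro x hx y hy
        exact hall x y hx hy
      rw [Set.ncard_singleton] at h2
      rw [Set.ncard_univ] at hcard
      omega

end

/-- `EdgeGood` from the bridge: halves at edges which are not bad are good. -/
theorem edgeGood_of_notBad {τ : Type} [Finite τ] {T : SimpleGraph τ} (hT : T.IsTree)
    (htw : TwinFree T) (hn : 11 ≤ Nat.card τ) {k : ℕ}
    (hbridge : ∀ col : τ → Bool, (∀ x y, T.Adj x y → col x ≠ col y) → ∀ a b, T.Adj a b →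
      ¬ BadEdge T col a b → Good T k (T.induce (hf T a b)) ⟨a, self_mem_hf a b⟩) :
    EdgeGood T k := by
  obtain ⟨col, hcol⟩ := exists_col hT.2
  obtain ⟨a, b, hab, h1, h2, h3, h4⟩ := exists_good_edge' hT htw hn hcol
  exact edgeGood_of_halves hT hab h3 h4 (PG.good (hbridge col hcol a b hab h1))
    (PG.good (hbridge col hcol b a hab.symm h2))

end Pool.Agent.SA33
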