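import Pool.Agent.SA33.Twin
import Pool.Agent.SA33.GoodEdge
import Pool.Agent.SA32.Plus2
import Pool.Agent.SA27.Cov81

set_option autoImplicit false

/-! The final assembly for MP_f994de_co: every tree is splittable, from the two families. -/

namespace Pool.Agent.SA33

open SimpleGraph Pool.Agent.SA97 Pool.Agent.SA32 Pool.Agent.SA27

theorem TwinMap.congr {m : ℕ} {T : SimpleGraph (Fin m)} {τ' τ'' : Type} {T' : SimpleGraph τ'}
    {T'' : SimpleGraph τ''} {π : Fin m → τ'} (h : TwinMap T T' π) (e : T'' ≃g T') :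
    TwinMap T T'' (fun x => e.symm (π x)) := by
  refine ⟨h.tree, ?_, ?_, ?_⟩
  · intro y
    obtain ⟨x, hx⟩ := h.surj (e y)
    refine ⟨x, ?_⟩
    change e.symm (π x) = y
    rw [hx, e.symm_apply_apply]
  · intro x y
    rw [h.adj]
    exact (e.symm.map_adj_iff).symm
  · intro x y hxy
    apply e.injective
    apply h.twinFree
    intro z
    have h1 := hxy (e.symm z)
    rw [← e.map_adj_iff, ← e.map_adj_iff, e.apply_symm_apply] at h1
    exact h1

theorem TwinMap.twinFree_congr {τ' τ'' : Type} {T' : SimpleGraph τ'}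
    {T'' : SimpleGraph τ''} (htw : TwinFree T') (e : T'' ≃g T') : TwinFree T'' := by
  intro x y hxy
  apply e.injective
  apply htw
  intro z
  have h1 := hxy (e.symm z)
  rw [← e.map_adj_iff, ← e.map_adj_iff, e.apply_symm_apply] at h1
  exact h1

/-- Patterns have at least eleven vertices. -/
theorem pats53_length : ∀ q ∈ pats53, 11 ≤ q.length := by decide +kernel

theorem assemble {k : ℕ} (hk : 3 ≤ k)
    (hbig : ∀ (τ : Type) [Finite τ] (T : SimpleGraph τ), T.IsTree → TwinFree T →
      11 ≤ Nat.card τ → (∃ q ∈ pats53, Nonempty (ptree q ↪g T)) → EdgeGood T k)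
    (hsmall : ∀ q ∈ L81, (ptree q).IsTree → TwinFree (ptree q) →
      EdgeGood (ptree q) k ∨ PlusGood (ptree q) k)
    (m : ℕ) (T : SimpleGraph (Fin m)) (hT : T.IsTree) (hm : 3 ≤ m) : Splittable T k := by
  refine splittable_of_twinReduction hk ?_ m T hT hm
  intro m T τ' T' π h h3
  have hfin := h.finite'
  rcases cov81 h.tree' h.twinFree h3 with ⟨q, hq, ⟨e⟩⟩ | ⟨q, hq, ⟨e⟩⟩
  · refine splittable_of_edgeGood h hk (hbig τ' T' h.tree' h.twinFree ?_ ⟨q, hq, ⟨e⟩⟩)
    have h1 := Nat.card_le_card_of_injective e e.injective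
    rw [Nat.card_eq_fintype_card, Fintype.card_fin] at h1
    exact (pats53_length q hq).trans h1
  · have h' := h.congr e
    have h3' : 3 ≤ Nat.card (Fin q.length) := by
      rw [Nat.card_congr e.toEquiv]
      exact h3
    rcases hsmall q hq h'.tree' h'.twinFree with hE | hP
    · exact splittable_of_edgeGood h' hk hE
    · exact plusGood_splittable h' h3' hk hP

end Pool.Agent.SA33
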