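import Pool.Agent.SA33.Gam

set_option autoImplicit false

/-! Existence of the host `Γ_S` and the resulting criterion for `Good`. -/

namespace Pool.Agent.SA33

open SimpleGraph Pool.Agent.SA97

namespace Gam

variable {k D : ℕ} {σ : Type} {Gr : Type} [Group Gr] [DecidableEq σ]

/-- The host graph. -/
def graph (S : SimpleGraph σ) (s : σ) (d : σ → ℕ) (f : X k D σ → Gr) :
    SimpleGraph (ZMod (2 * k - 1) × Gr) where
  Adj u v := Far u.1 v.1 ∧ ∀ (e : Edg k D Gr) (p q : σ), vtx s d f e p = u → vtx s d f e q = v →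
    S.Adj p q
  symm := ⟨fun _ _ h => ⟨h.1.symm, fun e p q hp hq => (h.2 e q p hq hp).symm⟩⟩
  loopless := ⟨fun _ h => not_far_self _ h.1⟩

theorem tcl_far {n : ℕ} {i j : ZMod n} (h1 : Far i j) (h2 : Far (i + 1) j) {a b : ℕ}
    (h : a = b + 1 ∨ b = a + 1) : Far (tcl i j a) (tcl i j b) := by
  have key : ∀ b : ℕ, Far (tcl i j (b + 1)) (tcl i j b) := by
    intro b
    unfold tcl
    rw [if_neg (by omega)]
    rcases Nat.mod_two_eq_zero_or_one b with hb | hb
    · rw [if_pos (by omega)]
      by_cases h0 : b = 0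
      · rw [if_pos h0]; exact h1.symm
      · rw [if_neg h0, if_neg (by omega)]; exact h2.symm
    · rw [if_neg (by omega), if_neg (by omega), if_pos hb]; exact h2
  rcases h with h | h
  · rw [h]; exact key b
  · rw [h]; exact (key a).symm

/-- The host. -/
def host (S : SimpleGraph σ) (s : σ) (d : σ → ℕ) (f : X k D σ → Gr) {L : ℕ} (hL : 2 ≤ L)
    (hd0 : ∀ x, d x = 0 ↔ x = s) (hd : ∀ x y, S.Adj x y → d x = d y + 1 ∨ d y = d x + 1)
    (hf : ∀ l : List (X k D σ × Bool), FreeGroup.IsReduced l → l ≠ [] →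
      l.length ≤ 2 * L → wval f l ≠ 1) : RHost k L D S d s (graph S s d f) where
  E := Edg k D Gr
  cls := Prod.fst
  ti e := e.1.1.1
  tj e := e.1.1.2
  vtx := vtx s d f
  far_ij e := e.1.2.1
  far_lj e := e.1.2.2
  inj := vtx_inj s d f hf (by omega)
  cls_vtx e p := rfl
  adj_far u v h := h.1
  adj_vtx e p q := by
    constructor
    · intro h
      exact h.2 e p q rfl rfl
    · intro h
      refine ⟨tcl_far e.1.2.1 e.1.2.2 (hd p q h), ?_⟩
      intro e' p' q' hp hq
      have hne : vtx s d f e p ≠ vtx s d f e q := fun h' =>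
        h.ne (vtx_inj s d f hf (by omega) e h')
      have hee : e' = e := by
        have h3 := acyc' s d f hf 2 le_rfl hL
          (fun n => if n % 2 = 0 then vtx s d f e p else vtx s d f e q)
          (fun n => if n = 0 then e else e') (by
            intro a ha b hb hab
            by_contra hne'
            interval_cases a <;> interval_cases b
            · exact hne' rfl
            · exact hne hab
            · exact hne hab.symm
            · exact hne' rfl) rfl (by
            intro a ha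
            interval_cases a
            · exact ⟨⟨p, rfl⟩, ⟨q, rfl⟩⟩
            · exact ⟨⟨q', hq⟩, ⟨p', hp⟩⟩) 1 (by omega)
        exact h3
      subst hee
      rw [vtx_inj s d f hf (by omega) _ hp, vtx_inj s d f hf (by omega) _ hq]
      exact h
  cov u v h1 h2 := by
    by_contra hcon
    push Not at hcon
    apply h2
    refine ⟨h1, fun e p q hp hq => ?_⟩
    exact absurd hq (hcon e p q hp)
  acyc m h2 hmL v e hinj hmem := by
    refine acyc' s d f hf m h2 hmL (fun x => v (x % m)) e ?_ ?_ ?_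
    · intro x hx y hy hxy
      rw [Nat.mod_eq_of_lt hx, Nat.mod_eq_of_lt hy] at hxy
      exact hinj x hx y hy hxy
    · simp
    · intro x hx
      rw [Nat.mod_eq_of_lt hx]
      exact hmem x hx
  root v j h1 h2 := by
    refine ⟨fun a => (⟨(v.1, j), h1, h2⟩, a, v.2), ?_, ?_⟩
    · intro a b hab
      exact congrArg (fun z : Edg k D Gr => z.2.1) hab
    · intro a
      refine ⟨rfl, rfl, ?_⟩
      refine Prod.ext ?_ ?_
      · change tcl _ _ (d s) = v.1
        rw [(hd0 s).2 rfl]
        rfl
      · change v.2 * F s f _ _ s = v.2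
        unfold F
        rw [if_pos rfl, mul_one]

end Gam

/-- Existence of rooted hosts. -/
theorem exists_host {k : ℕ} (hk : 3 ≤ k) {σ : Type} [Finite σ] (S : SimpleGraph σ) (s : σ)
    (d : σ → ℕ) (hd0 : ∀ x, d x = 0 ↔ x = s)
    (hd : ∀ x y, S.Adj x y → d x = d y + 1 ∨ d y = d x + 1) (L D : ℕ) :
    ∃ (V : Type) (_ : Finite V) (_ : Nonempty V) (G : SimpleGraph V),
      Nonempty (RHost k L D S d s G) := by
  classical
  have : NeZero (2 * k - 1) := ⟨by omega⟩
  have : Finite (Gam.Typ k) := by unfold Gam.Typ; infer_instance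
  obtain ⟨Gr, i1, i2, f, hf⟩ := exists_group (Gam.X k D σ) (2 * (L + 2))
  let H := Gam.host S s d f (L := L + 2) (by omega) hd0 hd hf
  refine ⟨ZMod (2 * k - 1) × Gr, inferInstance, inferInstance, Gam.graph S s d f, ⟨?_⟩⟩
  exact { H with acyc := fun m h2 hL => H.acyc m h2 (by omega) }

/-- THE CRITERION: if `T` does not embed in any host for `(S, s)` then `(S, s)` is good. -/
theorem good_of_host {τ : Type*} {T : SimpleGraph τ} {k : ℕ} (hk : 3 ≤ k) {σ : Type} [Finite σ]
    (S : SimpleGraph σ) (s : σ) (d : σ → ℕ) (hd0 : ∀ x, d x = 0 ↔ x = s)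
    (hd : ∀ x y, S.Adj x y → d x = d y + 1 ∨ d y = d x + 1) (L : ℕ)
    (h : ∀ (V : Type) (G : SimpleGraph V), Host k L S d G → IsEmpty (T ↪g G)) :
    Good T k S s := by
  obtain ⟨V, i1, i2, G, ⟨H⟩⟩ := exists_host hk S s d hd0 hd (L + 4)
    (k * (2 * k - 1) ^ (2 * k) + 1)
  have hrob : Robust S s k G := H.robust hk (by omega) hd0 (by omega)
  have hH : Host k L S d G :=
    { H.toHost with acyc := fun m h2 hL => H.acyc m h2 (by omega) }
  exact good_of_robust ⟨h V G hH, H.noClique hk⟩ hrob

end Pool.Agent.SA33
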