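import Pool.Agent.SA33.Edge

set_option autoImplicit false

/-! Reduction to twin-free trees by independent blow-ups. -/

namespace Pool.Agent.SA33

open SimpleGraph

/-- No two vertices have the same neighbours. -/
def TwinFree {τ : Type*} (T : SimpleGraph τ) : Prop :=
  ∀ x y, (∀ z, T.Adj x z ↔ T.Adj y z) → x = y

/-- Independent blow-up. -/
abbrev blow {V : Type*} (G : SimpleGraph V) (N : Type*) : SimpleGraph (V × N) :=
  G.comap Prod.fst

theorem blow_inC {τ τ' : Type*} {T : SimpleGraph τ} {T' : SimpleGraph τ'} (π : τ → τ')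
    (hsurj : Function.Surjective π) (hπ : ∀ x y, T.Adj x y ↔ T'.Adj (π x) (π y))
    (htw : TwinFree T') {k : ℕ} {V : Type*} {G : SimpleGraph V} (hG : InC T' k G) (N : Type*) :
    InC T k (blow G N) := by
  refine ⟨⟨fun f => ?_⟩, ⟨fun f => ?_⟩⟩
  · obtain ⟨g, hg⟩ := hsurj.hasRightInverse
    have h1 : ∀ x y, G.Adj (f (g x)).1 (f (g y)).1 ↔ T'.Adj x y := by
      intro x y
      have := f.map_adj_iff (v := g x) (w := g y)
      rw [hπ, hg, hg] at this
      exact this
    apply hG.1.false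
    refine ⟨⟨fun x => (f (g x)).1, ?_⟩, ?_⟩
    · intro x y hxy
      apply htw
      intro z
      rw [← h1 x z, ← h1 y z]
      simp only at hxy
      rw [hxy]
    · intro x y
      exact h1 x y
  · apply hG.2.false
    refine ⟨⟨fun x => (f x).1, ?_⟩, ?_⟩
    · intro x y hxy
      by_contra hne
      have h1 : (blow G N).Adj (f x) (f y) := by
        rw [f.map_adj_iff]
        exact hne
      have h2 : G.Adj (f x).1 (f y).1 := h1
      simp only at hxy
      rw [hxy] at h2
      exact G.loopless.irrefl _ h2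
    · intro x y
      exact f.map_adj_iff

theorem blow_robust {σ σ' : Type*} {S : SimpleGraph σ} {s : σ} {S' : SimpleGraph σ'}
    {s' : σ'} (π : σ → σ') (hπ : ∀ x y, S.Adj x y ↔ S'.Adj (π x) (π y))
    (hs : ∀ x, π x = s' ↔ x = s) {k : ℕ} {V : Type*}
    {G : SimpleGraph V} (hG : Robust S' s' k G) :
    Robust S s k (blow G σ) := by
  classical
  intro M hM hMf
  let M' : Set V := {v | ∃ i, (v, i) ∈ M}
  have hM'f : G.CliqueFreeOn M' (k - 1) := by
    intro t ht hc
    have : Nonempty σ := ⟨s⟩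
    have hM'1 : ∀ v, v ∈ M' → ∃ i, (v, i) ∈ M := fun v hv => hv
    choose! idx hidx using hM'1
    apply hMf (t := t.map ⟨fun v => (v, idx v), fun a b h => congrArg Prod.fst h⟩)
    · intro x hx
      simp only [Finset.coe_map, Set.mem_image, Finset.mem_coe] at hx
      obtain ⟨v, hv, rfl⟩ := hx
      exact hidx v (ht hv)
    · constructor
      · intro x hx y hy hxy
        simp only [Finset.coe_map, Set.mem_image,
          Finset.mem_coe] at hx hy
        obtain ⟨v, hv, rfl⟩ := hx
        obtain ⟨w, hw, rfl⟩ := hy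
        have hvw : v ≠ w := fun h => hxy (by rw [h])
        exact hc.1 hv hw hvw
      · rw [Finset.card_map]
        exact hc.2
  obtain ⟨φ, ⟨i0, hi0⟩, hφ⟩ := hG M' (by
    obtain ⟨⟨v, i⟩, hvi⟩ := hM
    exact ⟨v, i, hvi⟩) hM'f
  have hne : ∀ x, x ≠ s → π x ≠ s' := fun x hx h => hx ((hs x).1 h)
  refine ⟨⟨⟨fun x => (φ (π x), if x = s then i0 else x), ?_⟩, ?_⟩, ?_, ?_⟩
  · intro x y hxy
    simp only [Prod.mk.injEq] at hxy
    obtain ⟨h1, h2⟩ := hxy
    have h3 := φ.injective h1
    by_cases hx : x = s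
    · have : π x = s' := (hs x).2 hx
      rw [h3] at this
      rw [hx, (hs y).1 this]
    · have hy : y ≠ s := by
        intro hy
        apply hne x hx
        rw [h3, (hs y).2 hy]
      simpa only [hx, hy, if_false] using h2
  · intro x y
    change G.Adj (φ (π x)) (φ (π y)) ↔ S.Adj x y
    rw [φ.map_adj_iff, hπ]
  · change (φ (π s), if s = s then i0 else s) ∈ M
    rw [(hs s).2 rfl, if_pos rfl]
    exact hi0
  · intro x hx hmem
    exact hφ _ (hne x hx) ⟨_, hmem⟩

/-- A `(S', s')`-good class for the reduced tree gives a `(S, s)`-good class for the tree. -/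
theorem good_blow {τ τ' : Type*} {T : SimpleGraph τ} {T' : SimpleGraph τ'} (πT : τ → τ')
    (hsurj : Function.Surjective πT) (hπT : ∀ x y, T.Adj x y ↔ T'.Adj (πT x) (πT y))
    (htw : TwinFree T') {σ σ' : Type*} [Finite σ] {S : SimpleGraph σ} {s : σ}
    {S' : SimpleGraph σ'} {s' : σ'} (π : σ → σ') (hπ : ∀ x y, S.Adj x y ↔ S'.Adj (π x) (π y))
    (hs : ∀ x, π x = s' ↔ x = s) {k : ℕ} (hG : Good T' k S' s') :
    Good T k S s := by
  obtain ⟨n, G, hn, hGC, hGr⟩ := hG
  have : Nonempty (Fin n × σ) := ⟨⟨⟨0, hn⟩, s⟩⟩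
  exact good_of_robust (blow_inC πT hsurj hπT htw hGC σ) (blow_robust π hπ hs hGr)

/-- Robustness is monotone in the rooted tree. -/
theorem Robust.mono {σ σ' V : Type*} {S : SimpleGraph σ} {s : σ} {S' : SimpleGraph σ'} {s' : σ'}
    {k : ℕ} {G : SimpleGraph V} (h : Robust S s k G) (e : S' ↪g S) (he : e s' = s) :
    Robust S' s' k G := by
  intro M hM hf
  obtain ⟨φ, h1, h2⟩ := h M hM hf
  refine ⟨e.trans φ, by simpa [he] using h1, fun x hx => h2 _ ?_⟩
  intro h
  exact hx (e.injective (h.trans he.symm))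

end Pool.Agent.SA33
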