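import Pool.Agent.SA33.Lift
import Pool.Agent.SA33.GoodHost
import Pool.Agent.SA36.Tree

set_option autoImplicit false

/-! Halves of a tree at an edge: glueing, goodness from the host, `EdgeGood` from good halves. -/

namespace Pool.Agent.SA33

open SimpleGraph Pool.Agent.SA97 Pool.Agent.SA36

/-- A tree is glued from its halves at an edge. -/
theorem half_iso {τ : Type*} {T : SimpleGraph τ} (hT : T.IsTree) {a b : τ} (hab : T.Adj a b) :
    Nonempty (T ≃g glue (T.induce (hf T a b)) (T.induce (hf T b a))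
      {⟨a, self_mem_hf a b⟩} {⟨b, self_mem_hf b a⟩}) := by
  classical
  have hright : ∀ v, v ∉ hf T a b → v ∈ hf T b a := fun v hv =>
    (hf_cover hT hab v).resolve_left hv
  let F : τ → hf T a b ⊕ hf T b a := fun v =>
    if hv : v ∈ hf T a b then Sum.inl ⟨v, hv⟩ else Sum.inr ⟨v, hright v hv⟩
  let F' : hf T a b ⊕ hf T b a → τ := Sum.elim Subtype.val Subtype.val
  have hF1 : ∀ v (hv : v ∈ hf T a b), F v = Sum.inl ⟨v, hv⟩ := by
    intro v hv
    simp only [F]
    rw [dif_pos hv]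
  have hF2 : ∀ v (hv : v ∉ hf T a b), F v = Sum.inr ⟨v, hright v hv⟩ := by
    intro v hv
    simp only [F]
    rw [dif_neg hv]
  have hleft : ∀ v, F' (F v) = v := by
    intro v
    by_cases hv : v ∈ hf T a b
    · rw [hF1 v hv]; rfl
    · rw [hF2 v hv]; rfl
  have hinv : ∀ v, F (F' v) = v := by
    rintro (⟨v, hv⟩ | ⟨v, hv⟩)
    · change F v = _
      rw [hF1 v hv]
    · change F v = _
      rw [hF2 v (fun h => hf_disjoint hT.2 hab h hv)]
  refine ⟨⟨⟨F, F', hleft, hinv⟩, ?_⟩⟩
  intro x y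
  change (glue (T.induce (hf T a b)) (T.induce (hf T b a))
      {⟨a, self_mem_hf a b⟩} {⟨b, self_mem_hf b a⟩}).Adj (F x) (F y) ↔ T.Adj x y
  have cross : ∀ v w (hv : v ∈ hf T a b) (hw : w ∉ hf T a b),
      ((⟨v, hv⟩ : hf T a b) ∈ ({⟨a, self_mem_hf a b⟩} : Set (hf T a b)) ∧
        (⟨w, hright w hw⟩ : hf T b a) ∈ ({⟨b, self_mem_hf b a⟩} : Set (hf T b a))) ↔
      T.Adj v w := by
    intro v w hv hw
    rw [Set.mem_singleton_iff, Set.mem_singleton_iff, Subtype.mk.injEq, Subtype.mk.injEq]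
    constructor
    · rintro ⟨rfl, rfl⟩
      exact hab
    · intro h
      rcases hf_closed hT.2 hab hv h with h' | h'
      · exact absurd h' hw
      · exact h'
  by_cases hx : x ∈ hf T a b
  · by_cases hy : y ∈ hf T a b
    · rw [hF1 x hx, hF1 y hy]
      exact Iff.rfl
    · rw [hF1 x hx, hF2 y hy]
      exact cross x y hx hy
  · by_cases hy : y ∈ hf T a b
    · rw [hF2 x hx, hF1 y hy, T.adj_comm]
      exact cross y x hy hx
    · rw [hF2 x hx, hF2 y hy]
      exact Iff.rfl

/-- THE CRITERION for the half of a tree: if `T` does not embed in any host for the half of `a`,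
with the depth function `dist a`, then the half is good. -/
theorem good_half_of_host {τ : Type} [Finite τ] {T : SimpleGraph τ} (hT : T.IsTree) {a b : τ}
    {k : ℕ} (hk : 3 ≤ k) (L : ℕ)
    (h : ∀ (V : Type) (G : SimpleGraph V),
      Host k L (T.induce (hf T a b)) (fun x => T.dist a x.1) G → IsEmpty (T ↪g G)) :
    Good T k (T.induce (hf T a b)) ⟨a, self_mem_hf a b⟩ := by
  refine good_of_host hk _ _ (fun x : hf T a b => T.dist a x.1) ?_ ?_ L h
  · intro x
    rw [hT.connected.dist_eq_zero_iff]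
    constructor
    · intro hh; exact Subtype.ext hh.symm
    · intro hh; rw [hh]
  · intro x y hxy
    exact hT.dist_eq_dist_add_one_of_adj a hxy

theorem edgeGood_of_halves {τ : Type} [Finite τ] {T : SimpleGraph τ} (hT : T.IsTree) {a b : τ}
    {k : ℕ} (hab : T.Adj a b) (hx : ∃ x, x ≠ b ∧ T.Adj a x) (hy : ∃ y, y ≠ a ∧ T.Adj b y)
    (ha : PG T k (T.induce (hf T a b)) ⟨a, self_mem_hf a b⟩)
    (hb : PG T k (T.induce (hf T b a)) ⟨b, self_mem_hf b a⟩) : EdgeGood T k := by
  refine ⟨hf T a b, hf T b a, inferInstance, inferInstance, _, _, _, _, half_iso hT hab,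
    ?_, ?_, ha, hb⟩
  · obtain ⟨x, hxb, hax⟩ := hx
    rcases hf_closed hT.2 hab (self_mem_hf a b) hax with h | h
    · exact ⟨⟨x, h⟩, hax⟩
    · exact absurd h.2 hxb
  · obtain ⟨y, hya, hby⟩ := hy
    rcases hf_closed hT.2 hab.symm (self_mem_hf b a) hby with h | h
    · exact ⟨⟨y, h⟩, hby⟩
    · exact absurd h.2 hya

end Pool.Agent.SA33
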