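import Pool.Agent.SA33.Blow
import Pool.Agent.SA97.Fwd

set_option autoImplicit false

/-! The interface between the small-tree / big-tree modules (which work with the twin-free tree
`T'`) and the final theorem (for every tree `T` whose twin reduction is `T'`). -/

namespace Pool.Agent.SA33

open SimpleGraph Pool.Agent.SA97

/-- Rooted graphs which are good up to stripping roots of degree one; `leaf` is the single edge
rooted at an end. -/
inductive PG {τ : Type} (T : SimpleGraph τ) (k : ℕ) : {σ : Type} → SimpleGraph σ → σ → Prop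
  | good {σ : Type} [Finite σ] {S : SimpleGraph σ} {s : σ} (h : Good T k S s) : PG T k S s
  | leaf : PG T k (fwd (⊥ : SimpleGraph Unit) ()) none
  | fwd {σ : Type} {S : SimpleGraph σ} {s : σ} (h : PG T k S s) (hs : ∃ x, S.Adj s x) :
      PG T k (fwd S s) none
  | iso {σ σ' : Type} {S : SimpleGraph σ} {S' : SimpleGraph σ'} {s : σ} (h : PG T k S s)
      (e : S ≃g S') : PG T k S' (e s)

/-- `T` has an edge between two nonleaf vertices whose halves are good (up to stripping). -/
def EdgeGood {τ : Type} (T : SimpleGraph τ) (k : ℕ) : Prop :=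
  ∃ (σ ρ : Type) (_ : Finite σ) (_ : Finite ρ) (S : SimpleGraph σ) (s : σ)
    (R : SimpleGraph ρ) (r : ρ), Nonempty (T ≃g glue S R {s} {r}) ∧
    (∃ x, S.Adj s x) ∧ (∃ y, R.Adj r y) ∧ PG T k S s ∧ PG T k R r

end Pool.Agent.SA33
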