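import Pool.Agent.SA33.Transfer

set_option autoImplicit false

/-! `EdgeGood T' k` implies `Splittable T k` for every tree `T` with twin reduction `T'`. -/

namespace Pool.Agent.SA33

open SimpleGraph Pool.Agent.SA97

/-- `T` is a tree whose twin reduction is `T'`, via `π`. -/
structure TwinMap {m : ℕ} (T : SimpleGraph (Fin m)) {τ' : Type} (T' : SimpleGraph τ')
    (π : Fin m → τ') : Prop where
  tree : T.IsTree
  surj : Function.Surjective π
  adj : ∀ x y, T.Adj x y ↔ T'.Adj (π x) (π y)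
  twinFree : TwinFree T'

theorem TwinMap.uniq {m : ℕ} {T : SimpleGraph (Fin m)} {τ' : Type} {T' : SimpleGraph τ'}
    {π : Fin m → τ'} (h : TwinMap T T' π) {x y : Fin m} {z w : τ'} (hzw : z ≠ w)
    (h1 : T'.Adj (π x) z) (h2 : T'.Adj (π x) w) (h3 : π x = π y) : x = y := by
  obtain ⟨a, rfl⟩ := h.surj z
  obtain ⟨b, rfl⟩ := h.surj w
  have hab : a ≠ b := fun h => hzw (by rw [h])
  refine no_c4 h.tree.isAcyclic hab ((h.adj _ _).2 h1) ((h.adj _ _).2 h2) ((h.adj _ _).2 ?_)
    ((h.adj _ _).2 ?_)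
  · rw [← h3]; exact h1
  · rw [← h3]; exact h2

section half

variable {m : ℕ} {T : SimpleGraph (Fin m)} {τ' : Type} {T' : SimpleGraph τ'} {π : Fin m → τ'}
  {σ ρ : Type} {S : SimpleGraph σ} {s : σ} {R : SimpleGraph ρ} {r : ρ}

/-- One half of `T` is good. -/
theorem half_good (h : TwinMap T T' π) {k : ℕ} (hk : 3 ≤ k) (hns : ¬ Splittable T k)
    (hK : InC T k (⊤ : SimpleGraph (Fin (k - 1)))) {u v w : Fin m} (huv : T.Adj u v)
    (huw : ¬ T.Adj u w) (hvw : ¬ T.Adj v w)
    (φ : T' ≃g glue S R {s} {r}) (hs : ∃ x, S.Adj s x) (hS : PG T' k S s)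
    (g : {x : Fin m // (φ (π x)).isLeft = true} → σ)
    (hg : ∀ x, φ (π x.1) = Sum.inl (g x)) (s₀ : {x : Fin m // (φ (π x)).isLeft = true})
    (hs₀ : g s₀ = s) :
    Good T k (T.comap (Subtype.val : {x : Fin m // (φ (π x)).isLeft = true} → Fin m)) s₀ := by
  obtain ⟨x', hx'⟩ := hs
  have hadj : ∀ x y, (T.comap (Subtype.val : {x : Fin m // (φ (π x)).isLeft = true} → Fin m)).Adj
      x y ↔ S.Adj (g x) (g y) := by
    intro x y
    change T.Adj x.1 y.1 ↔ _
    rw [h.adj, ← φ.map_adj_iff, hg x, hg y]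
    exact Iff.rfl
  refine PG.transfer hk h.tree.connected hns hK π h.surj h.adj h.twinFree huv huw hvw hS _ s₀ g
    ?_ hadj ?_ ?_
  · intro y
    obtain ⟨x, hx⟩ := h.surj (φ.symm (Sum.inl y))
    have hx' : φ (π x) = Sum.inl y := by rw [hx, φ.apply_symm_apply]
    refine ⟨⟨x, by rw [hx']; rfl⟩, ?_⟩
    exact (Sum.inl.inj (hx'.symm.trans (hg ⟨x, by rw [hx']; rfl⟩))).symm
  · intro x
    constructor
    · intro hx
      apply Subtype.ext
      have h1 : φ (π x.1) = Sum.inl s := by rw [hg x, hx]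
      have h2 : φ (π s₀.1) = Sum.inl s := by rw [hg s₀, hs₀]
      refine h.uniq (z := φ.symm (Sum.inl x')) (w := φ.symm (Sum.inr r)) ?_ ?_ ?_ ?_
      · intro hh
        have := φ.symm.injective hh
        exact absurd this (by simp)
      · rw [← φ.map_adj_iff, h1, φ.apply_symm_apply]; exact hx'
      · rw [← φ.map_adj_iff, h1, φ.apply_symm_apply]; exact ⟨rfl, rfl⟩
      · exact φ.injective (h1.trans h2.symm)
    · intro hx; rw [hx, hs₀]
  · intro x y z w hzw h1 h2 h3
    apply Subtype.ext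
    refine h.uniq (z := φ.symm (Sum.inl z)) (w := φ.symm (Sum.inl w)) ?_ ?_ ?_ ?_
    · intro hh
      exact hzw (Sum.inl.inj (φ.symm.injective hh))
    · rw [← φ.map_adj_iff, hg x, φ.apply_symm_apply]; exact h1
    · rw [← φ.map_adj_iff, hg x, φ.apply_symm_apply]; exact h2
    · apply φ.injective
      rw [hg x, hg y, h3]

end half

/-- The glued graph with the two sides exchanged. -/
def glueComm {σ ρ : Type} (S : SimpleGraph σ) (R : SimpleGraph ρ) (s : σ) (r : ρ) :
    glue S R {s} {r} ≃g glue R S {r} {s} :=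
  ⟨Equiv.sumComm σ ρ, by
    rintro (x | x) (y | y)
    · exact Iff.rfl
    · exact and_comm
    · exact and_comm
    · exact Iff.rfl⟩

theorem splittable_of_edgeGood {m : ℕ} {T : SimpleGraph (Fin m)} {τ' : Type}
    {T' : SimpleGraph τ'} {π : Fin m → τ'} (h : TwinMap T T' π) {k : ℕ} (hk : 3 ≤ k)
    (hE : EdgeGood T' k) : Splittable T k := by
  classical
  by_contra hns
  obtain ⟨σ, ρ, _, _, S, s, R, r, ⟨φ⟩, ⟨x', hx'⟩, ⟨y', hy'⟩, hS, hR⟩ := hE
  obtain ⟨a, ha⟩ := h.surj (φ.symm (Sum.inl s))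
  obtain ⟨b, hb⟩ := h.surj (φ.symm (Sum.inr r))
  obtain ⟨c, hc⟩ := h.surj (φ.symm (Sum.inl x'))
  obtain ⟨d, hd⟩ := h.surj (φ.symm (Sum.inr y'))
  have ha' : φ (π a) = Sum.inl s := by rw [ha, φ.apply_symm_apply]
  have hb' : φ (π b) = Sum.inr r := by rw [hb, φ.apply_symm_apply]
  have hc' : φ (π c) = Sum.inl x' := by rw [hc, φ.apply_symm_apply]
  have hd' : φ (π d) = Sum.inr y' := by rw [hd, φ.apply_symm_apply]
  have hac : T.Adj a c := by
    rw [h.adj, ← φ.map_adj_iff, ha', hc']; exact hx'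
  have had : ¬ T.Adj a d := by
    rw [h.adj, ← φ.map_adj_iff, ha', hd']
    rintro ⟨-, h2⟩
    exact hy'.ne h2.symm
  have hcd : ¬ T.Adj c d := by
    rw [h.adj, ← φ.map_adj_iff, hc', hd']
    rintro ⟨h1, -⟩
    exact hx'.ne h1.symm
  have had' : a ≠ d := by
    intro hh; rw [hh, hd'] at ha'; exact absurd ha' (by simp)
  have hcd' : c ≠ d := by
    intro hh; rw [hh, hd'] at hc'; exact absurd hc' (by simp)
  have hac' : a ≠ c := hac.ne
  have hm : 3 ≤ m := by
    have h3 : ({a, c, d} : Finset (Fin m)).card = 3 := by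
      rw [Finset.card_insert_of_notMem, Finset.card_pair hcd']
      simp [hac', had']
    have := Finset.card_le_univ ({a, c, d} : Finset (Fin m))
    rw [Fintype.card_fin] at this
    omega
  have hK : InC T k (⊤ : SimpleGraph (Fin (k - 1))) := by
    refine ⟨⟨fun f => ?_⟩, ⟨fun f => ?_⟩⟩
    · exact had (f.map_adj_iff.1 (f.injective.ne had'))
    · have := Fintype.card_le_of_injective _ f.injective
      rw [Fintype.card_fin, Fintype.card_fin] at this
      omega
  have hK2 : InC T k (⊤ : SimpleGraph (Fin 2)) := by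
    refine ⟨⟨fun f => ?_⟩, ⟨fun f => ?_⟩⟩
    · have := Fintype.card_le_of_injective _ f.injective
      rw [Fintype.card_fin, Fintype.card_fin] at this
      omega
    · have := Fintype.card_le_of_injective _ f.injective
      rw [Fintype.card_fin, Fintype.card_fin] at this
      omega
  -- left half
  have hg : ∀ x : {x : Fin m // (φ (π x)).isLeft = true}, ∃ y, φ (π x.1) = Sum.inl y :=
    fun x => Sum.isLeft_iff.1 x.2
  choose g hg using hg
  let s₀ : {x : Fin m // (φ (π x)).isLeft = true} := ⟨a, by rw [ha']; rfl⟩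
  have hs₀ : g s₀ = s := by
    have := hg s₀
    rw [ha'] at this
    exact (Sum.inl.inj this).symm
  have hgood1 := half_good h hk hns hK hac had hcd φ ⟨x', hx'⟩ hS g hg s₀ hs₀
  -- right half
  let φ' : T' ≃g glue R S {r} {s} := φ.trans (glueComm S R s r)
  have hφ' : ∀ x, φ' x = (φ x).swap := fun x => rfl
  have hg2 : ∀ x : {x : Fin m // (φ' (π x)).isLeft = true}, ∃ y, φ' (π x.1) = Sum.inl y :=
    fun x => Sum.isLeft_iff.1 x.2
  choose g2 hg2 using hg2
  have hb2 : φ' (π b) = Sum.inl r := by rw [hφ', hb']; rfl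
  let r₀ : {x : Fin m // (φ' (π x)).isLeft = true} := ⟨b, by rw [hb2]; rfl⟩
  have hr₀ : g2 r₀ = r := by
    have := hg2 r₀
    rw [hb2] at this
    exact (Sum.inl.inj this).symm
  have hgood2 := half_good h hk hns hK hac had hcd φ' ⟨y', hy'⟩ hR g2 hg2 r₀ hr₀
  -- glue
  apply hns
  refine edge_criterion h.tree.connected (by omega) hK2 _ s₀ _ r₀ ?_ hgood1 hgood2
  have hright : ∀ x : Fin m, ¬ (φ (π x)).isLeft = true → (φ' (π x)).isLeft = true := by
    intro x hx
    rw [hφ']
    rcases hh : φ (π x) with y | y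
    · rw [hh] at hx; exact absurd rfl hx
    · rfl
  let F : Fin m → {x : Fin m // (φ (π x)).isLeft = true} ⊕
      {x : Fin m // (φ' (π x)).isLeft = true} := fun x =>
    if hx : (φ (π x)).isLeft = true then Sum.inl ⟨x, hx⟩ else Sum.inr ⟨x, hright x hx⟩
  have hF1 : ∀ x (hx : (φ (π x)).isLeft = true), F x = Sum.inl ⟨x, hx⟩ := by
    intro x hx
    simp only [F]
    rw [dif_pos hx]
  have hF2 : ∀ x (hx : ¬ (φ (π x)).isLeft = true), F x = Sum.inr ⟨x, hright x hx⟩ := by
    intro x hx
    simp only [F]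
    rw [dif_neg hx]
  refine ⟨⟨⟨F, ?_⟩, ?_⟩⟩
  · intro x y hxy
    by_cases hx : (φ (π x)).isLeft = true
    · by_cases hy : (φ (π y)).isLeft = true
      · rw [hF1 x hx, hF1 y hy] at hxy
        exact congrArg Subtype.val (Sum.inl.inj hxy)
      · rw [hF1 x hx, hF2 y hy] at hxy
        exact absurd hxy (by simp)
    · by_cases hy : (φ (π y)).isLeft = true
      · rw [hF2 x hx, hF1 y hy] at hxy
        exact absurd hxy (by simp)
      · rw [hF2 x hx, hF2 y hy] at hxy
        exact congrArg Subtype.val (Sum.inr.inj hxy)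
  · intro x y
    have cross : ∀ x y : Fin m, (hx : (φ (π x)).isLeft = true) →
        (hy : ¬ (φ (π y)).isLeft = true) →
        ((⟨x, hx⟩ : {x : Fin m // (φ (π x)).isLeft = true}) ∈
          ({s₀} : Set {x : Fin m // (φ (π x)).isLeft = true}) ∧
          (⟨y, hright y hy⟩ : {x : Fin m // (φ' (π x)).isLeft = true}) ∈
          ({r₀} : Set {x : Fin m // (φ' (π x)).isLeft = true}) ↔ T.Adj x y) := by
      intro x y hx hy
      rw [Set.mem_singleton_iff, Set.mem_singleton_iff, h.adj]
      constructor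
      · rintro ⟨h1, h2⟩
        have h1' : x = a := congrArg Subtype.val h1
        have h2' : y = b := congrArg Subtype.val h2
        rw [h1', h2', ← φ.map_adj_iff, ha', hb']
        exact ⟨rfl, rfl⟩
      · intro hxy
        rw [← φ.map_adj_iff] at hxy
        obtain ⟨p, hp⟩ := Sum.isLeft_iff.1 hx
        rcases hq : φ (π y) with q | q
        · rw [hq] at hy; exact absurd rfl hy
        · rw [hp, hq] at hxy
          obtain ⟨h1, h2⟩ := hxy
          rw [Set.mem_singleton_iff] at h1 h2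
          subst h1 h2
          constructor
          · apply Subtype.ext
            refine h.uniq (z := φ.symm (Sum.inl x')) (w := φ.symm (Sum.inr q)) ?_ ?_ ?_ ?_
            · intro hh
              exact absurd (φ.symm.injective hh) (by simp)
            · rw [← φ.map_adj_iff, hp, φ.apply_symm_apply]; exact hx'
            · rw [← φ.map_adj_iff, hp, φ.apply_symm_apply]; exact ⟨rfl, rfl⟩
            · exact φ.injective (hp.trans ha'.symm)
          · apply Subtype.ext
            refine h.uniq (z := φ.symm (Sum.inr y')) (w := φ.symm (Sum.inl p)) ?_ ?_ ?_ ?_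
            · intro hh
              exact absurd (φ.symm.injective hh) (by simp)
            · rw [← φ.map_adj_iff, hq, φ.apply_symm_apply]; exact hy'
            · rw [← φ.map_adj_iff, hq, φ.apply_symm_apply]; exact ⟨rfl, rfl⟩
            · exact φ.injective (hq.trans hb'.symm)
    change (glue _ _ _ _).Adj (F x) (F y) ↔ _
    by_cases hx : (φ (π x)).isLeft = true
    · by_cases hy : (φ (π y)).isLeft = true
      · rw [hF1 x hx, hF1 y hy]
        exact Iff.rfl
      · rw [hF1 x hx, hF2 y hy]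
        exact cross x y hx hy
    · by_cases hy : (φ (π y)).isLeft = true
      · rw [hF2 x hx, hF1 y hy, T.adj_comm]
        exact cross y x hy hx
      · rw [hF2 x hx, hF2 y hy]
        exact Iff.rfl

end Pool.Agent.SA33
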