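import Mathlib

set_option autoImplicit false

/-! A finite group with generators satisfying no short relation. -/

namespace Pool.Agent.SA33

open FreeGroup

section

variable {X : Type} [DecidableEq X] (L : ℕ)

/-- The ball of radius `L` in the free group. -/
structure Ball (X : Type) [DecidableEq X] (L : ℕ) where
  /-- the element -/
  val : FreeGroup X
  /-- it is short -/
  prop : val.norm ≤ L

theorem Ball.ext' {a b : Ball X L} (h : a.val = b.val) : a = b := by
  cases a; cases b; cases h; rfl

instance [Finite X] : Finite (Ball X L) := by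
  have h1 : {l : List (X × Bool) | l.length ≤ L}.Finite := List.finite_length_le (X × Bool) L
  have h2 : Finite {l : List (X × Bool) | l.length ≤ L} := h1
  let f : Ball X L → {l : List (X × Bool) | l.length ≤ L} := fun g => ⟨g.val.toWord, g.prop⟩
  refine Finite.of_injective f ?_
  intro a b hab
  have h3 : a.val.toWord = b.val.toWord := congrArg Subtype.val hab
  exact Ball.ext' L (toWord_injective h3)

/-- Left multiplication by a generator, where it stays in the ball. -/
def step (x : X) : {g : Ball X L // (of x * g.val).norm ≤ L} ≃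
    {g : Ball X L // ((of x)⁻¹ * g.val).norm ≤ L} where
  toFun g := ⟨⟨of x * g.1.val, g.2⟩, by
    change ((of x)⁻¹ * (of x * g.1.val)).norm ≤ L
    rw [inv_mul_cancel_left]; exact g.1.prop⟩
  invFun g := ⟨⟨(of x)⁻¹ * g.1.val, g.2⟩, by
    change ((of x) * ((of x)⁻¹ * g.1.val)).norm ≤ L
    rw [mul_inv_cancel_left]; exact g.1.prop⟩
  left_inv g := by
    apply Subtype.ext
    apply Ball.ext'
    change (of x)⁻¹ * (of x * g.1.val) = g.1.val
    rw [inv_mul_cancel_left]
  right_inv g := by
    apply Subtype.ext
    apply Ball.ext'
    change (of x) * ((of x)⁻¹ * g.1.val) = g.1.val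
    rw [mul_inv_cancel_left]

/-- The permutation of the ball extending left multiplication by a generator. -/
noncomputable def gen [Finite X] (x : X) : Equiv.Perm (Ball X L) :=
  letI : Fintype (Ball X L) := Fintype.ofFinite _
  letI : DecidableEq (Ball X L) := Classical.decEq _
  letI : DecidablePred fun g : Ball X L => (of x * g.val).norm ≤ L := Classical.decPred _
  letI : DecidablePred fun g : Ball X L => ((of x)⁻¹ * g.val).norm ≤ L := Classical.decPred _
  (step L x).extendSubtype

theorem gen_apply [Finite X] (x : X) (g : Ball X L) (h : (of x * g.val).norm ≤ L) :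
    (gen L x g).val = of x * g.val := by
  letI : Fintype (Ball X L) := Fintype.ofFinite _
  letI : DecidableEq (Ball X L) := Classical.decEq _
  letI : DecidablePred fun g : Ball X L => (of x * g.val).norm ≤ L := Classical.decPred _
  letI : DecidablePred fun g : Ball X L => ((of x)⁻¹ * g.val).norm ≤ L := Classical.decPred _
  exact congrArg Ball.val (Equiv.extendSubtype_apply_of_mem (step L x) g h)

theorem gen_inv_apply [Finite X] (x : X) (g : Ball X L) (h : ((of x)⁻¹ * g.val).norm ≤ L) :
    ((gen L x)⁻¹ g).val = (of x)⁻¹ * g.val := by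
  have h1 : gen L x ⟨(of x)⁻¹ * g.val, h⟩ = g := by
    apply Ball.ext'
    rw [gen_apply]
    · exact mul_inv_cancel_left _ _
    · rw [mul_inv_cancel_left]; exact g.prop
  have h2 : (gen L x)⁻¹ g = ⟨(of x)⁻¹ * g.val, h⟩ := by
    rw [Equiv.Perm.inv_eq_iff_eq]; exact h1.symm
  rw [h2]

/-- the identity as an element of the ball -/
def one : Ball X L := ⟨1, by rw [FreeGroup.norm_one]; omega⟩

theorem lift_apply_one [Finite X] (l : List (X × Bool)) (hl : l.length ≤ L) :
    (FreeGroup.lift (gen L) (mk l) (one L)).val = mk l := by
  induction l with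
  | nil =>
    change (FreeGroup.lift (gen L) 1 _).val = 1
    rw [_root_.map_one]
    rfl
  | cons a l ih =>
    have hl' : l.length ≤ L := by rw [List.length_cons] at hl; omega
    obtain ⟨x, b⟩ := a
    have ih' := ih hl'
    have hcons : (mk ((x, b) :: l) : FreeGroup X) = mk [(x, b)] * mk l := by
      rw [mul_mk]; rfl
    have hnorm : (mk ((x, b) :: l) : FreeGroup X).norm ≤ L := norm_mk_le.trans hl
    rw [hcons, _root_.map_mul, Equiv.Perm.mul_apply]
    rw [hcons] at hnorm
    cases b with
    | true =>
      have h1 : (mk [(x, true)] : FreeGroup X) = of x := rfl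
      rw [h1] at hnorm ⊢
      rw [lift_apply_of, gen_apply]
      · rw [ih']
      · rw [ih']; exact hnorm
    | false =>
      have h1 : (mk [(x, false)] : FreeGroup X) = (of x)⁻¹ := rfl
      rw [h1] at hnorm ⊢
      rw [_root_.map_inv, lift_apply_of, gen_inv_apply]
      · rw [ih']
      · rw [ih']; exact hnorm

end

/-- The value of a word. -/
def wval {X G : Type} [Group G] (f : X → G) (l : List (X × Bool)) : G :=
  (l.map fun x => cond x.2 (f x.1) (f x.1)⁻¹).prod

theorem wval_nil {X G : Type} [Group G] (f : X → G) : wval f [] = 1 := rfl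

theorem wval_cons {X G : Type} [Group G] (f : X → G) (a : X × Bool) (l : List (X × Bool)) :
    wval f (a :: l) = cond a.2 (f a.1) (f a.1)⁻¹ * wval f l := by
  unfold wval; rw [List.map_cons, List.prod_cons]

theorem wval_append {X G : Type} [Group G] (f : X → G) (l l' : List (X × Bool)) :
    wval f (l ++ l') = wval f l * wval f l' := by
  unfold wval; rw [List.map_append, List.prod_append]

/-- There is a finite group with elements `f x` such that no nonempty reduced word of length at
most `L` in them is trivial. -/
theorem exists_group (X : Type) [Finite X] (L : ℕ) :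
    ∃ (G : Type) (_ : Group G) (_ : Finite G) (f : X → G),
      ∀ l : List (X × Bool), FreeGroup.IsReduced l → l ≠ [] → l.length ≤ L → wval f l ≠ 1 := by
  classical
  refine ⟨Equiv.Perm (Ball X L), inferInstance, inferInstance, gen L, ?_⟩
  intro l hred hne hlen h
  have h1 := lift_apply_one L l hlen
  rw [lift_mk] at h1
  change (wval (gen L) l (one L)).val = mk l at h1
  rw [h] at h1
  have h2 : (mk l : FreeGroup X) = 1 := h1.symm
  have h3 : (mk l : FreeGroup X).toWord = [] := by rw [h2]; exact toWord_one
  rw [toWord_mk, hred.reduce_eq] at h3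
  exact hne h3

end Pool.Agent.SA33
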