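import Pool.Agent.SA33.Edge
import Pool.Agent.SA33.Grp
import Pool.Agent.SA97.Cls

set_option autoImplicit false

/-! The host `Γ_S` for MP_f994de_co: classes in `ZMod (2 k - 1)`, default complete between far
classes, and a hypergraph of large girth whose hyperedges are typed induced copies of `S`. -/

namespace Pool.Agent.SA33

open SimpleGraph Pool.Agent.SA97

/-- The class of a vertex of depth `t` in a hyperedge of type `(i, j)`. -/
def tcl {n : ℕ} (i j : ZMod n) (t : ℕ) : ZMod n :=
  if t = 0 then i else if t % 2 = 1 then j else i + 1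

/-- A host for the rooted forest `S` with depth function `d`: hyperedges `e` are typed induced
copies `vtx e` of `S`, far nonadjacent vertices lie in a common hyperedge, and there are no
cycles of hyperedges of length at most `L`. -/
structure Host (k L : ℕ) {σ : Type} (S : SimpleGraph σ) (d : σ → ℕ) {V : Type}
    (G : SimpleGraph V) where
  /-- the hyperedges -/
  E : Type
  /-- the class of a vertex -/
  cls : V → ZMod (2 * k - 1)
  /-- the class of the root of a hyperedge -/
  ti : E → ZMod (2 * k - 1)
  /-- the class of the vertices of odd depth of a hyperedge -/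
  tj : E → ZMod (2 * k - 1)
  /-- the vertices of a hyperedge -/
  vtx : E → σ → V
  far_ij : ∀ e, Far (ti e) (tj e)
  far_lj : ∀ e, Far (ti e + 1) (tj e)
  inj : ∀ e, Function.Injective (vtx e)
  cls_vtx : ∀ e p, cls (vtx e p) = tcl (ti e) (tj e) (d p)
  adj_far : ∀ u v, G.Adj u v → Far (cls u) (cls v)
  adj_vtx : ∀ e p q, G.Adj (vtx e p) (vtx e q) ↔ S.Adj p q
  cov : ∀ u v, Far (cls u) (cls v) → ¬ G.Adj u v → ∃ e p q, vtx e p = u ∧ vtx e q = v
  acyc : ∀ m, 2 ≤ m → m ≤ L → ∀ (v : ℕ → V) (e : ℕ → E),
    (∀ s < m, ∀ t < m, v s = v t → s = t) →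
    (∀ s < m, v s ∈ Set.range (vtx (e s)) ∧ v ((s + 1) % m) ∈ Set.range (vtx (e s))) →
    ∀ s < m, e s = e 0

/-- A host in which every vertex is the root of at least `D` hyperedges of every type. -/
structure RHost (k L D : ℕ) {σ : Type} (S : SimpleGraph σ) (d : σ → ℕ) (s : σ) {V : Type}
    (G : SimpleGraph V) extends Host k L S d G where
  root : ∀ v j, Far (cls v) j → Far (cls v + 1) j → ∃ r : Fin D → E, Function.Injective r ∧
    ∀ a, ti (r a) = cls v ∧ tj (r a) = j ∧ vtx (r a) s = v

namespace Host

variable {k L : ℕ} {σ : Type} {S : SimpleGraph σ} {d : σ → ℕ} {V : Type} {G : SimpleGraph V}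

theorem noClique (H : Host k L S d G) (hk : 3 ≤ k) :
    IsEmpty ((⊤ : SimpleGraph (Fin k)) ↪g G) := by
  classical
  have : NeZero (2 * k - 1) := ⟨by omega⟩
  refine ⟨fun f => ?_⟩
  have hadj : ∀ a b : Fin k, a ≠ b → Far (H.cls (f a)) (H.cls (f b)) := by
    intro a b hab
    have h1 : G.Adj (f a) (f b) := f.map_adj_iff.2 hab
    exact H.adj_far _ _ h1
  have hinj : Function.Injective (fun a => H.cls (f a)) := by
    intro a b hab
    by_contra hne
    exact (hadj a b hne).ne hab
  have h1 := far_card (Finset.univ.image (fun a => H.cls (f a))) (by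
    intro x hx y hy hxy
    rw [Finset.mem_image] at hx hy
    obtain ⟨a, -, rfl⟩ := hx
    obtain ⟨b, -, rfl⟩ := hy
    exact hadj a b (fun h => hxy (by rw [h]))) (by omega)
  rw [Finset.card_image_of_injective _ hinj, Finset.card_univ, Fintype.card_fin] at h1
  omega

/-- Linearity. -/
theorem linear (H : Host k L S d G) (hL : 2 ≤ L) {u v : V} (huv : u ≠ v) {e e' : H.E}
    (hu : u ∈ Set.range (H.vtx e)) (hv : v ∈ Set.range (H.vtx e))
    (hu' : u ∈ Set.range (H.vtx e')) (hv' : v ∈ Set.range (H.vtx e')) : e = e' := by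
  have h := H.acyc 2 le_rfl hL (fun n => if n = 0 then u else v)
    (fun n => if n = 0 then e else e') (by
      intro a ha b hb hab
      by_contra hne
      interval_cases a <;> interval_cases b
      · exact hne rfl
      · exact huv hab
      · exact huv hab.symm
      · exact hne rfl) (by
      intro a ha
      interval_cases a
      · exact ⟨hu, hv⟩
      · exact ⟨hv', hu'⟩) 1 (by omega)
  exact h.symm

/-- No triangles. -/
theorem acyc3 (H : Host k L S d G) (hL : 3 ≤ L) {a b c : V} (hab : a ≠ b) (hbc : b ≠ c)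
    (hac : a ≠ c) {e f g : H.E}
    (h1 : a ∈ Set.range (H.vtx e)) (h2 : b ∈ Set.range (H.vtx e))
    (h3 : b ∈ Set.range (H.vtx f)) (h4 : c ∈ Set.range (H.vtx f))
    (h5 : c ∈ Set.range (H.vtx g)) (h6 : a ∈ Set.range (H.vtx g)) : e = f ∧ f = g := by
  have h := H.acyc 3 (by omega) hL (fun n => if n = 0 then a else if n = 1 then b else c)
    (fun n => if n = 0 then e else if n = 1 then f else g) (by
      intro x hx y hy hxy
      by_contra hne
      interval_cases x <;> interval_cases y
      · exact hne rfl
      · exact hab hxy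
      · exact hac hxy
      · exact hab hxy.symm
      · exact hne rfl
      · exact hbc hxy
      · exact hac hxy.symm
      · exact hbc hxy.symm
      · exact hne rfl) (by
      intro x hx
      interval_cases x
      · exact ⟨h1, h2⟩
      · exact ⟨h3, h4⟩
      · exact ⟨h5, h6⟩)
  have h7 := h 1 (by omega)
  have h8 := h 2 (by omega)
  simp only [if_neg (one_ne_zero), if_true] at h7
  change g = e at h8
  change f = e at h7
  exact ⟨h7.symm, h7.trans h8.symm⟩

/-- No cycles of length four. -/
theorem acyc4 (H : Host k L S d G) (hL : 4 ≤ L) {a b c x : V} (hab : a ≠ b) (hbc : b ≠ c)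
    (hac : a ≠ c) (hax : a ≠ x) (hbx : b ≠ x) (hcx : c ≠ x) {e f g h : H.E}
    (h1 : a ∈ Set.range (H.vtx e)) (h2 : b ∈ Set.range (H.vtx e))
    (h3 : b ∈ Set.range (H.vtx f)) (h4 : c ∈ Set.range (H.vtx f))
    (h5 : c ∈ Set.range (H.vtx g)) (h6 : x ∈ Set.range (H.vtx g))
    (h7 : x ∈ Set.range (H.vtx h)) (h8 : a ∈ Set.range (H.vtx h)) : e = f ∧ e = g ∧ e = h := by
  have hh := H.acyc 4 (by omega) hL
    (fun n => if n = 0 then a else if n = 1 then b else if n = 2 then c else x)
    (fun n => if n = 0 then e else if n = 1 then f else if n = 2 then g else h) (by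
      intro y hy z hz hyz
      by_contra hne
      interval_cases y <;> interval_cases z
      · exact hne rfl
      · exact hab hyz
      · exact hac hyz
      · exact hax hyz
      · exact hab hyz.symm
      · exact hne rfl
      · exact hbc hyz
      · exact hbx hyz
      · exact hac hyz.symm
      · exact hbc hyz.symm
      · exact hne rfl
      · exact hcx hyz
      · exact hax hyz.symm
      · exact hbx hyz.symm
      · exact hcx hyz.symm
      · exact hne rfl) (by
      intro y hy
      interval_cases y
      · exact ⟨h1, h2⟩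
      · exact ⟨h3, h4⟩
      · exact ⟨h5, h6⟩
      · exact ⟨h7, h8⟩)
  have e1 : f = e := hh 1 (by omega)
  have e2 : g = e := hh 2 (by omega)
  have e3 : h = e := hh 3 (by omega)
  exact ⟨e1.symm, e2.symm, e3.symm⟩

end Host

end Pool.Agent.SA33
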