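import Pool.Agent.SA33.GoodEdge
import Pool.Agent.SA36.Bridge

set_option autoImplicit false

/-! Big trees: property `P(4)` gives `EdgeGood`. -/

namespace Pool.Agent.SA33

open SimpleGraph Pool.Agent.SA97 Pool.Agent.SA36

theorem edgeGood_of_P4 {τ : Type} [Finite τ] {T : SimpleGraph τ} (hT : T.IsTree)
    (htw : TwinFree T) (hn : 11 ≤ Nat.card τ) (hP : P4 T) {k : ℕ} (hk : 3 ≤ k) :
    EdgeGood T k := by
  refine edgeGood_of_notBad hT htw hn ?_
  intro col hcol a b hab hbad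
  refine good_half_of_host hT hk 20 ?_
  intro V G H
  refine ⟨fun φ => hbad ?_⟩
  have hd0 : ∀ x : hf T a b, T.dist a x.1 = 0 ↔ x = ⟨a, self_mem_hf a b⟩ := by
    intro x
    rw [hT.1.dist_eq_zero_iff, Subtype.ext_iff, eq_comm]
  obtain ⟨e, J, K, hJK, h3, h4⟩ := hP k 20 hk le_rfl _ _ _ (by
    intro p q hp hq
    rw [(hd0 p).1 hp, (hd0 q).1 hq]) V G H φ
  refine bad_of_block hk (by norm_num) hd0 ?_ H φ e hJK h3 h4
  intro x hx
  obtain ⟨p, hp⟩ := hT.1.exists_walk_length_eq_dist a x.1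
  have := (walk_parity hcol p).1
  rw [hp] at this
  exact this hx

end Pool.Agent.SA33
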