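import Mathlib

set_option autoImplicit false

/-! Definitions for MP_f994de_co (Sauer): the class `G(T,K_k)`, splittability, glueing, robustness. -/

namespace Pool.Agent.SA33

open SimpleGraph

/-- `G` belongs to the class `G(T, K_k)`. -/
def InC {τ : Type*} (T : SimpleGraph τ) (k : ℕ) {V : Type*} (G : SimpleGraph V) : Prop :=
  IsEmpty (T ↪g G) ∧ IsEmpty ((⊤ : SimpleGraph (Fin k)) ↪g G)

/-- The conclusion of the frozen statement for `T`, `k`. -/
def Splittable {m : ℕ} (T : SimpleGraph (Fin m)) (k : ℕ) : Prop :=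
  ∃ c : ℕ, ∃ (n : ℕ) (β : SimpleGraph (Fin n)),
    IsEmpty (T ↪g β) ∧ IsEmpty ((⊤ : SimpleGraph (Fin k)) ↪g β) ∧
    ∀ (p : ℕ) (γ : SimpleGraph (Fin p)),
      IsEmpty (T ↪g γ) → IsEmpty ((⊤ : SimpleGraph (Fin k)) ↪g γ) →
      ∃ f : Fin p → Fin c, ∀ e : β ↪g γ, ∃ x y : Fin n, f (e x) ≠ f (e y)

/-- Two graphs joined by the complete bipartite graph between `M` and `A`. -/
def glue {V W : Type*} (δ : SimpleGraph V) (H : SimpleGraph W) (M : Set V) (A : Set W) :
    SimpleGraph (V ⊕ W) where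
  Adj x y := match x, y with
    | .inl a, .inl b => δ.Adj a b
    | .inr a, .inr b => H.Adj a b
    | .inl a, .inr b => a ∈ M ∧ b ∈ A
    | .inr b, .inl a => a ∈ M ∧ b ∈ A
  symm := ⟨by
    rintro (x | x) (y | y) h
    · exact h.symm
    · exact h
    · exact h
    · exact h.symm⟩
  loopless := ⟨by
    rintro (x | x) h
    · exact δ.loopless.irrefl _ h
    · exact H.loopless.irrefl _ h⟩

/-- `G` is `(S, s)`-robust (for cliques of size `k`): every nonempty set `M` of vertices without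
`K_(k-1)` contains a vertex which is the root of an induced copy of `S` meeting `M` only there. -/
def Robust {σ V : Type*} (S : SimpleGraph σ) (s : σ) (k : ℕ) (G : SimpleGraph V) : Prop :=
  ∀ M : Set V, M.Nonempty → G.CliqueFreeOn M (k - 1) →
    ∃ φ : S ↪g G, φ s ∈ M ∧ ∀ x, x ≠ s → φ x ∉ M

/-- `G` is order-robust for `(S, s)`. -/
def OrderRobust {σ V : Type*} (S : SimpleGraph σ) (s : σ) (k : ℕ) (G : SimpleGraph V) : Prop :=
  ∀ i : V → ℕ, (∀ j, G.CliqueFreeOn {v | i v = j} (k - 1)) →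
    ∃ φ : S ↪g G, ∀ x, x ≠ s → i (φ s) < i (φ x)

/-- `(S, s)` is good: some finite graph in `G(T,K_k)` is `(S,s)`-robust and nonempty. -/
def Good {τ : Type*} (T : SimpleGraph τ) (k : ℕ) {σ : Type*} (S : SimpleGraph σ) (s : σ) : Prop :=
  ∃ (n : ℕ) (G : SimpleGraph (Fin n)), 0 < n ∧ InC T k G ∧ Robust S s k G

end Pool.Agent.SA33
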