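import Pool.Agent.SA33.Glue

set_option autoImplicit false

/-! Edge criterion, order-robustness. -/

namespace Pool.Agent.SA33

open SimpleGraph

/-- If one side of a glued graph has an attached vertex, the other attached set is
`K_(k-1)`-free. -/
theorem glue_cliqueFreeOn_left {V W : Type*} {δ : SimpleGraph V} {H : SimpleGraph W} {M : Set V}
    {A : Set W} {k : ℕ} (hk : 0 < k) (h : IsEmpty ((⊤ : SimpleGraph (Fin k)) ↪g glue δ H M A))
    (hA : A.Nonempty) : δ.CliqueFreeOn M (k - 1) := by
  classical
  intro t ht hc
  obtain ⟨a, ha⟩ := hA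
  have hfree : (glue δ H M A).CliqueFree k := by
    by_contra hcf
    exact h.false (SimpleGraph.topEmbeddingOfNotCliqueFree hcf)
  apply hfree (insert (Sum.inr a) (t.map ⟨Sum.inl, Sum.inl_injective⟩))
  have h1 : (glue δ H M A).IsNClique (k - 1) (t.map ⟨Sum.inl, Sum.inl_injective⟩) := by
    constructor
    · intro x hx y hy hxy
      simp only [Finset.coe_map, Function.Embedding.coeFn_mk, Set.mem_image, Finset.mem_coe] at hx hy
      obtain ⟨x, hx, rfl⟩ := hx
      obtain ⟨y, hy, rfl⟩ := hy
      exact hc.1 hx hy (fun h => hxy (by rw [h]))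
    · rw [Finset.card_map]
      exact hc.2
  have h2 := h1.insert (a := Sum.inr a) (by
    intro b hb
    simp only [Finset.mem_map, Function.Embedding.coeFn_mk] at hb
    obtain ⟨b, hb, rfl⟩ := hb
    exact ⟨ht hb, ha⟩)
  rwa [Nat.sub_add_cancel hk] at h2

theorem glue_comm {V W : Type*} (δ : SimpleGraph V) (H : SimpleGraph W) (M : Set V) (A : Set W) :
    Nonempty (glue δ H M A ≃g glue H δ A M) := by
  refine ⟨⟨Equiv.sumComm V W, ?_⟩⟩
  rintro (x | x) (y | y)
  · exact Iff.rfl
  · exact and_comm
  · exact and_comm
  · exact Iff.rfl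

theorem glue_cliqueFreeOn_right {V W : Type*} {δ : SimpleGraph V} {H : SimpleGraph W} {M : Set V}
    {A : Set W} {k : ℕ} (hk : 0 < k) (h : IsEmpty ((⊤ : SimpleGraph (Fin k)) ↪g glue δ H M A))
    (hM : M.Nonempty) : H.CliqueFreeOn A (k - 1) := by
  obtain ⟨e⟩ := glue_comm H δ A M
  exact glue_cliqueFreeOn_left hk ⟨fun f => h.false (f.trans e.toEmbedding)⟩ hM

/-- EDGE criterion. -/
theorem edge_criterion {m : ℕ} {T : SimpleGraph (Fin m)} (hT : T.Connected) {k : ℕ} (hk : 0 < k)
    (hK : InC T k (⊤ : SimpleGraph (Fin 2)))
    {σ ρ : Type*} (S : SimpleGraph σ) (s : σ) (R : SimpleGraph ρ) (r : ρ)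
    (iso : Nonempty (T ↪g glue S R {s} {r}))
    (hS : Good T k S s) (hR : Good T k R r) : Splittable T k := by
  by_contra hns
  obtain ⟨n, G, hn, hG, hGr⟩ := hS
  obtain ⟨l, H, hl, hH, hHr⟩ := hR
  have : Nonempty (Fin n) := ⟨⟨0, hn⟩⟩
  have : Nonempty (Fin l) := ⟨⟨0, hl⟩⟩
  obtain ⟨M, A, hM, hA, hC⟩ := glue_lemma hT hk hns hK G H hG hH
  obtain ⟨φ, hφ, hφ'⟩ := hGr M hM (glue_cliqueFreeOn_left hk hC.2 hA)
  obtain ⟨ψ, hψ, hψ'⟩ := hHr A hA (glue_cliqueFreeOn_right hk hC.2 hM)
  obtain ⟨e⟩ := iso
  let f : glue S R {s} {r} ↪g glue G H M A := ⟨⟨Sum.map φ ψ, Sum.map_injective.2 ⟨φ.injective, ψ.injective⟩⟩, by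
    have hx : ∀ x, φ x ∈ M ↔ x = s := fun x =>
      ⟨fun h => by by_contra hne; exact hφ' x hne h, fun h => h ▸ hφ⟩
    have hy : ∀ y, ψ y ∈ A ↔ y = r := fun y =>
      ⟨fun h => by by_contra hne; exact hψ' y hne h, fun h => h ▸ hψ⟩
    rintro (x | x) (y | y)
    · exact φ.map_adj_iff
    · exact and_congr (hx x) (hy y)
    · exact and_congr (hx y) (hy x)
    · exact ψ.map_adj_iff⟩
  exact hC.1.false (e.trans f)

/-- Robustness passes to any graph in bijection; nonempty finite types suffice for `Good`. -/
theorem good_of_robust {τ : Type*} {T : SimpleGraph τ} {k : ℕ} {σ : Type*} {S : SimpleGraph σ}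
    {s : σ} {V : Type*} [Finite V] [Nonempty V] {G : SimpleGraph V} (hG : InC T k G)
    (hr : Robust S s k G) : Good T k S s := by
  classical
  obtain ⟨n, ⟨e⟩⟩ := Finite.exists_equiv_fin V
  let G' : SimpleGraph (Fin n) := G.comap e.symm
  let iso : G ≃g G' := ⟨e, by intro a b; simp [G']⟩
  refine ⟨n, G', ?_, hG.iso iso.symm, ?_⟩
  · obtain ⟨v⟩ := ‹Nonempty V›
    exact (Nat.zero_le _).trans_lt (e v).2
  · intro M hM hf
    have hne : (iso ⁻¹' M).Nonempty := by
      obtain ⟨x, hx⟩ := hM
      exact ⟨iso.symm x, by simpa using hx⟩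
    have hcf : G.CliqueFreeOn (iso ⁻¹' M) (k - 1) := by
      intro t ht hc
      refine hf (t := t.map iso.toEquiv.toEmbedding) ?_ ⟨?_, ?_⟩
      · intro x hx
        simp only [Finset.coe_map, Set.mem_image] at hx
        obtain ⟨y, hy, rfl⟩ := hx
        exact ht hy
      · intro x hx y hy hxy
        simp only [Finset.coe_map, Set.mem_image] at hx hy
        obtain ⟨x, hx, rfl⟩ := hx
        obtain ⟨y, hy, rfl⟩ := hy
        exact iso.map_adj_iff.2 (hc.1 hx hy (fun h => hxy (by rw [h])))
      · rw [Finset.card_map]
        exact hc.2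
    obtain ⟨φ, h1, h2⟩ := hr _ hne hcf
    exact ⟨φ.trans iso.toEmbedding, h1, h2⟩

/-- Order-robust graphs have robust induced subgraphs. -/
theorem good_of_orderRobust {τ : Type*} {T : SimpleGraph τ} {k : ℕ} (hk : 2 ≤ k) {σ : Type*} {S : SimpleGraph σ}
    {s : σ} {V : Type*} [Finite V] {G : SimpleGraph V} (hG : InC T k G)
    (hr : OrderRobust S s k G) : Good T k S s := by
  classical
  by_contra hng
  let _ : Fintype V := Fintype.ofFinite V
  have key : ∀ n : ℕ, ∀ X : Finset V, X.card = n → ∃ i : V → ℕ,
      (∀ j, G.CliqueFreeOn ({v | i v = j} ∩ (X : Set V)) (k - 1)) ∧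
      ∀ φ : S ↪g G, (∀ x, φ x ∈ X) → ¬ (∀ x, x ≠ s → i (φ s) < i (φ x)) := by
    intro n
    induction n using Nat.strong_induction_on with
    | _ n ih =>
      intro X hX
      by_cases hXe : X.Nonempty
      · -- G[X] is not robust
        have hnr : ¬ Robust S s k (G.induce (X : Set V)) := by
          intro hrob
          apply hng
          have : Nonempty (X : Set V) := by
            obtain ⟨x, hx⟩ := hXe
            exact ⟨⟨x, hx⟩⟩
          exact good_of_robust (hG.comap (SimpleGraph.Embedding.induce _)) hrob
        unfold Robust at hnr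
        push Not at hnr
        obtain ⟨M, hM, hMf, hMb⟩ := hnr
        let M' : Set V := Subtype.val '' M
        have hM'X : M' ⊆ X := by
          rintro _ ⟨x, _, rfl⟩
          exact x.2
        have hM'f : G.CliqueFreeOn M' (k - 1) := by
          intro t ht hc
          have ht' : ∀ v ∈ t, ∃ hv : v ∈ (X : Set V), (⟨v, hv⟩ : (X : Set V)) ∈ M := by
            intro v hv
            obtain ⟨x, hx, rfl⟩ := ht hv
            exact ⟨x.2, hx⟩
          refine hMf (t := t.subtype (fun v => v ∈ (X : Set V))) ?_ ⟨?_, ?_⟩
          · intro x hx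
            have hx' : (x : V) ∈ t := by simpa using hx
            obtain ⟨hv, h⟩ := ht' _ hx'
            exact h
          · intro x hx y hy hxy
            have hx' : (x : V) ∈ t := by simpa using hx
            have hy' : (y : V) ∈ t := by simpa using hy
            exact hc.1 hx' hy' (fun h => hxy (Subtype.ext h))
          · rw [← hc.2, Finset.card_subtype]
            congr 1
            apply Finset.filter_true_of_mem
            intro v hv
            exact (ht' v hv).1
        have hlt : (X.filter (fun v => v ∉ M')).card < n := by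
          rw [← hX]
          apply Finset.card_lt_card
          rw [Finset.filter_ssubset]
          obtain ⟨x, hx⟩ := hM
          exact ⟨x, x.2, not_not.2 ⟨x, hx, rfl⟩⟩
        obtain ⟨i', hi1, hi2⟩ := ih _ hlt _ rfl
        refine ⟨fun v => if v ∈ M' then 0 else i' v + 1, ?_, ?_⟩
        · intro j t ht hc
          cases j with
          | zero =>
            apply hM'f (t := t) _ hc
            intro v hv
            have := ht hv
            by_contra hvM
            simp [hvM] at this
          | succ j =>
            apply hi1 j (t := t) _ hc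
            intro v hv
            have := ht hv
            by_cases hvM : v ∈ M'
            · simp [hvM] at this
            · simp only [hvM, if_false, Set.mem_inter_iff, Set.mem_ofPred_eq,
                Nat.add_right_cancel_iff] at this
              refine ⟨this.1, ?_⟩
              simp only [Finset.coe_filter, Set.mem_ofPred_eq]
              exact ⟨this.2, hvM⟩
        · intro φ hφ hmin
          by_cases hroot : φ s ∈ M'
          · -- copy in X rooted in M avoiding M
            let ψ : S ↪g G.induce (X : Set V) :=
              ⟨⟨fun x => ⟨φ x, hφ x⟩, fun x y h => φ.injective (congrArg Subtype.val h)⟩, by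
                intro x y
                exact φ.map_adj_iff⟩
            obtain ⟨x0, hx0, hx0'⟩ := hroot
            have h1 : ψ s ∈ M := by
              have : ψ s = x0 := Subtype.ext hx0'.symm
              rw [this]; exact hx0
            obtain ⟨x, hx, hxM⟩ := hMb ψ h1
            have h2 := hmin x hx
            have h3 : φ x ∈ M' := ⟨ψ x, hxM, rfl⟩
            simp [h3] at h2
          · apply hi2 φ
            · intro x
              rw [Finset.mem_filter]
              refine ⟨hφ x, ?_⟩
              by_cases hx : x = s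
              · rw [hx]; exact hroot
              · intro hxM
                have := hmin x hx
                simp [hxM] at this
            · intro x hx
              have h2 := hmin x hx
              have hxM : φ x ∉ M' := by
                intro hxM
                simp [hxM] at h2
              simp only [hroot, hxM, if_false] at h2
              omega
      · refine ⟨fun _ => 0, ?_, ?_⟩
        · intro j t ht hc
          have hXe' : X = ∅ := Finset.not_nonempty_iff_eq_empty.1 hXe
          have : t = ∅ := by
            rw [Finset.eq_empty_iff_forall_notMem]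
            intro v hv
            have := (ht hv).2
            rw [hXe'] at this
            simp at this
          subst this
          have := hc.2
          simp at this
          omega
        · intro φ hφ _
          exact hXe ⟨φ s, hφ s⟩
  obtain ⟨i, hi1, hi2⟩ := key _ Finset.univ rfl
  obtain ⟨φ, hφ⟩ := hr i (by
    intro j
    have := hi1 j
    simpa using this)
  exact hi2 φ (fun x => Finset.mem_univ _) hφ

end Pool.Agent.SA33
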