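import Pool.Agent.SA33.Final
import Pool.Agent.SA33.Big

set_option autoImplicit false

/-! The final assembly for MP_f994de_co, from `P(4)` for the 53 patterns and the 81 small trees. -/

namespace Pool.Agent.SA33

open SimpleGraph Pool.Agent.SA97 Pool.Agent.SA32 Pool.Agent.SA27

theorem assemble2 {k : ℕ} (hk : 3 ≤ k) (hP4 : ∀ q ∈ pats53, Pool.Agent.SA36.P4 (ptree q))
    (hsmall : ∀ q ∈ L81, (ptree q).IsTree → TwinFree (ptree q) →
      EdgeGood (ptree q) k ∨ PlusGood (ptree q) k)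
    (m : ℕ) (T : SimpleGraph (Fin m)) (hT : T.IsTree) (hm : 3 ≤ m) : Splittable T k := by
  refine assemble hk ?_ hsmall m T hT hm
  rintro τ _ T hT htw hn ⟨q, hq, ⟨e⟩⟩
  exact edgeGood_of_P4 hT htw hn (Pool.Agent.SA36.P4.mono (hP4 q hq) e) hk

end Pool.Agent.SA33
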