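import Pool.Agent.SA33.Rob

set_option autoImplicit false

/-! Construction of the host `Γ_S` from a finite group without short relations. -/

namespace Pool.Agent.SA33

open SimpleGraph Pool.Agent.SA97

namespace Gam

variable (k D : ℕ) (σ : Type)

/-- The types of hyperedges. -/
def Typ (k : ℕ) : Type := {τ : ZMod (2 * k - 1) × ZMod (2 * k - 1) // Far τ.1 τ.2 ∧ Far (τ.1 + 1) τ.2}

/-- The generators. -/
abbrev X : Type := Typ k × Fin D × σ

variable {k D σ} {Gr : Type} [Group Gr]

/-- A hyperedge. -/
abbrev Edg (k D : ℕ) (Gr : Type) : Type := Typ k × Fin D × Gr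

variable [DecidableEq σ] (s : σ) (d : σ → ℕ) (f : X k D σ → Gr)

/-- the group element of a position -/
def F (τ : Typ k) (a : Fin D) (p : σ) : Gr := if p = s then 1 else f (τ, a, p)

/-- the vertices of a hyperedge -/
def vtx (e : Edg k D Gr) (p : σ) : ZMod (2 * k - 1) × Gr :=
  (tcl e.1.1.1 e.1.1.2 (d p), e.2.2 * F s f e.1 e.2.1 p)

/-- the word of a step from position `p` to position `q` of a hyperedge -/
def wd (τ : Typ k) (a : Fin D) (p q : σ) : List (X k D σ × Bool) :=
  (if p = s then [] else [((τ, a, p), false)]) ++ (if q = s then [] else [((τ, a, q), true)])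

theorem wd_length (τ : Typ k) (a : Fin D) (p q : σ) : (wd s τ a p q).length ≤ 2 := by
  unfold wd
  split <;> split <;> simp

theorem wd_ne_nil (τ : Typ k) (a : Fin D) {p q : σ} (h : p ≠ q) : wd s τ a p q ≠ [] := by
  unfold wd
  split
  · next h1 =>
    split
    · next h2 => exact absurd (h1.trans h2.symm) h
    · simp
  · simp

theorem wd_red (τ : Typ k) (a : Fin D) {p q : σ} (h : p ≠ q) :
    FreeGroup.IsReduced (wd s τ a p q) := by
  unfold wd
  split
  · split
    · exact FreeGroup.IsReduced.nil
    · exact FreeGroup.IsReduced.singleton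
  · split
    · exact FreeGroup.IsReduced.singleton
    · change FreeGroup.IsReduced [((τ, a, p), false), ((τ, a, q), true)]
      rw [FreeGroup.isReduced_cons_cons]
      refine ⟨?_, FreeGroup.IsReduced.singleton⟩
      intro h1
      exact absurd (congrArg (fun x : X k D σ => x.2.2) h1) h

theorem wd_val (τ : Typ k) (a : Fin D) (p q : σ) :
    wval f (wd s τ a p q) = (F s f τ a p)⁻¹ * F s f τ a q := by
  unfold wd F
  rw [wval_append]
  congr 1
  · split
    · rw [wval_nil, inv_one]
    · rw [wval_cons, wval_nil]; simp
  · split
    · rw [wval_nil]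
    · rw [wval_cons, wval_nil]; simp

/-- the word of a sequence of steps -/
def wds (e : ℕ → Edg k D Gr) (p q : ℕ → σ) : ℕ → List (X k D σ × Bool)
  | 0 => []
  | m + 1 => wds e p q m ++ wd s (e m).1 (e m).2.1 (p m) (q m)

omit [Group Gr] in
theorem wds_length (e : ℕ → Edg k D Gr) (p q : ℕ → σ) (m : ℕ) :
    (wds s e p q m).length ≤ 2 * m := by
  induction m with
  | zero => simp [wds]
  | succ m ih =>
    rw [wds, List.length_append]
    have := wd_length s (e m).1 (e m).2.1 (p m) (q m)
    omega

theorem wds_val (e : ℕ → Edg k D Gr) (p q : ℕ → σ) (m : ℕ)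
    (hc : ∀ t, t < m → vtx s d f (e t) (q t) = vtx s d f (e (t + 1)) (p (t + 1))) :
    wval f (wds s e p q m) = (vtx s d f (e 0) (p 0)).2⁻¹ * (vtx s d f (e m) (p m)).2 := by
  induction m with
  | zero => rw [wds, wval_nil, inv_mul_cancel]
  | succ m ih =>
    rw [wds, wval_append, ih (fun t ht => hc t (by omega)), ← hc m (by omega), wd_val, mul_assoc]
    congr 1
    simp only [vtx]
    group

theorem junction (e e' : Edg k D Gr) (p q p' q' : σ) (hpq : p ≠ q) (hpq' : p' ≠ q')
    (hv : vtx s d f e q = vtx s d f e' p') (hne : e ≠ e') :
    ∀ x ∈ (wd s e.1 e.2.1 p q).getLast?, ∀ y ∈ (wd s e'.1 e'.2.1 p' q').head?,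
      x.1 = y.1 → x.2 = y.2 := by
  intro x hx y hy hxy
  have hg : (vtx s d f e q).2 = (vtx s d f e' p').2 := congrArg Prod.snd hv
  have hsame : e.1 = e'.1 → e.2.1 = e'.2.1 → q = p' → False := by
    intro h1 h2 h3
    apply hne
    refine Prod.ext h1 (Prod.ext h2 ?_)
    simp only [vtx] at hg
    rw [h1, h2, h3] at hg
    exact mul_right_cancel hg
  unfold wd at hx hy
  by_cases hq : q = s
  · have hp : p ≠ s := fun h => hpq (h.trans hq.symm)
    rw [if_neg hp, if_pos hq] at hx
    simp only [List.append_nil, List.getLast?_singleton, Option.mem_def, Option.some.injEq] at hx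
    subst hx
    by_cases hp' : p' = s
    · have hq' : q' ≠ s := fun h => hpq' (hp'.trans h.symm)
      rw [if_pos hp', if_neg hq'] at hy
      simp only [List.nil_append, List.head?_cons, Option.mem_def, Option.some.injEq] at hy
      subst hy
      exfalso
      have h1 : e.1 = e'.1 := congrArg (fun z : X k D σ => z.1) hxy
      have h2 : e.2.1 = e'.2.1 := congrArg (fun z : X k D σ => z.2.1) hxy
      exact hsame h1 h2 (hq.trans hp'.symm)
    · rw [if_neg hp'] at hy
      simp only [List.singleton_append, List.head?_cons, Option.mem_def, Option.some.injEq] at hy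
      subst hy
      rfl
  · rw [if_neg hq] at hx
    simp only [List.getLast?_append, List.getLast?_singleton, Option.some_or, Option.mem_def,
      Option.some.injEq] at hx
    subst hx
    by_cases hp' : p' = s
    · have hq' : q' ≠ s := fun h => hpq' (hp'.trans h.symm)
      rw [if_pos hp', if_neg hq'] at hy
      simp only [List.nil_append, List.head?_cons, Option.mem_def, Option.some.injEq] at hy
      subst hy
      rfl
    · rw [if_neg hp'] at hy
      simp only [List.singleton_append, List.head?_cons, Option.mem_def, Option.some.injEq] at hy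
      subst hy
      exfalso
      have h1 : e.1 = e'.1 := congrArg (fun z : X k D σ => z.1) hxy
      have h2 : e.2.1 = e'.2.1 := congrArg (fun z : X k D σ => z.2.1) hxy
      have h3 : q = p' := congrArg (fun z : X k D σ => z.2.2) hxy
      exact hsame h1 h2 h3

theorem wds_red (e : ℕ → Edg k D Gr) (p q : ℕ → σ) (m : ℕ) (hpq : ∀ t, t ≤ m → p t ≠ q t)
    (hc : ∀ t, t < m → vtx s d f (e t) (q t) = vtx s d f (e (t + 1)) (p (t + 1)) ∧
      e t ≠ e (t + 1)) :
    FreeGroup.IsReduced (wds s e p q (m + 1)) := by
  induction m with
  | zero =>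
    rw [wds, wds, List.nil_append]
    exact wd_red s _ _ (hpq 0 le_rfl)
  | succ m ih =>
    rw [wds]
    have ih' := ih (fun t ht => hpq t (by omega)) (fun t ht => hc t (by omega))
    unfold FreeGroup.IsReduced at ih' ⊢
    rw [List.isChain_append]
    refine ⟨ih', wd_red s _ _ (hpq _ le_rfl), ?_⟩
    intro x hx y hy
    have hx' : x ∈ (wd s (e m).1 (e m).2.1 (p m) (q m)).getLast? := by
      rw [wds, List.getLast?_append_of_ne_nil _ (wd_ne_nil s _ _ (hpq m (by omega)))] at hx
      exact hx
    exact junction s d f (e m) (e (m + 1)) (p m) (q m) (p (m + 1)) (q (m + 1))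
      (hpq m (by omega)) (hpq (m + 1) le_rfl) (hc m (by omega)).1 (hc m (by omega)).2 x hx' y hy

variable {L : ℕ} (hf : ∀ l : List (X k D σ × Bool), FreeGroup.IsReduced l → l ≠ [] →
  l.length ≤ 2 * L → wval f l ≠ 1)

include hf

/-- No closed walks without backtracking. -/
theorem nb (e : ℕ → Edg k D Gr) (p q : ℕ → σ) (m : ℕ) (hm : m + 1 ≤ L)
    (hpq : ∀ t, t ≤ m → p t ≠ q t)
    (hc : ∀ t, t < m → vtx s d f (e t) (q t) = vtx s d f (e (t + 1)) (p (t + 1)) ∧
      e t ≠ e (t + 1)) :
    vtx s d f (e 0) (p 0) ≠ vtx s d f (e m) (q m) := by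
  intro h
  have hred := wds_red s d f e p q m hpq hc
  have hne : wds s e p q (m + 1) ≠ [] := by
    rw [wds]
    intro h1
    exact wd_ne_nil s _ _ (hpq m le_rfl) (List.append_eq_nil_iff.1 h1).2
  have hlen := wds_length s e p q (m + 1)
  apply hf _ hred hne (by omega)
  rw [wds, wval_append, wds_val s d f e p q m (fun t ht => (hc t ht).1), wd_val, mul_assoc, h]
  simp only [vtx]
  group

theorem vtx_inj (hL : 1 ≤ L) (e : Edg k D Gr) : Function.Injective (vtx s d f e) := by
  intro a b hab
  by_contra hne
  exact nb s d f hf (fun _ => e) (fun _ => a) (fun _ => b) 0 (by omega) (fun _ _ => hne)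
    (fun t ht => absurd ht (by omega)) hab

theorem acyc' (m : ℕ) : 2 ≤ m → m ≤ L → ∀ (v : ℕ → ZMod (2 * k - 1) × Gr) (e : ℕ → Edg k D Gr),
    (∀ x < m, ∀ y < m, v x = v y → x = y) → v m = v 0 →
    (∀ x < m, v x ∈ Set.range (vtx s d f (e x)) ∧ v (x + 1) ∈ Set.range (vtx s d f (e x))) →
    ∀ x < m, e x = e 0 := by
  induction m with
  | zero => intro h; omega
  | succ m ih =>
    intro h2 hL v e hinj hcl hmem
    by_cases hex : ∃ t, t + 1 < m + 1 ∧ e t = e (t + 1)
    · obtain ⟨t, ht, het⟩ := hex
      rcases Nat.lt_or_ge m 2 with hm | hm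
      · have hm1 : m = 1 := by omega
        subst hm1
        have ht0 : t = 0 := by omega
        subst ht0
        intro x hx
        interval_cases x
        · rfl
        · exact het.symm
      · have h := ih hm (by omega) (fun x => if x ≤ t then v x else v (x + 1))
          (fun x => if x ≤ t then e x else e (x + 1)) (by
            intro x hx y hy hxy
            split at hxy <;> split at hxy
            · exact hinj x (by omega) y (by omega) hxy
            · have := hinj x (by omega) (y + 1) (by omega) hxy
              omega
            · have := hinj (x + 1) (by omega) y (by omega) hxy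
              omega
            · have := hinj (x + 1) (by omega) (y + 1) (by omega) hxy
              omega) (by
            rw [if_neg (by omega), if_pos (by omega)]
            exact hcl) (by
            intro x hx
            rcases Nat.lt_trichotomy x t with hxt | hxt | hxt
            · rw [if_pos (by omega), if_pos (by omega), if_pos (by omega)]
              exact hmem x (by omega)
            · subst hxt
              rw [if_pos le_rfl, if_pos le_rfl, if_neg (by omega)]
              refine ⟨(hmem x (by omega)).1, ?_⟩
              rw [het]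
              exact (hmem (x + 1) (by omega)).2
            · rw [if_neg (by omega), if_neg (by omega), if_neg (by omega)]
              exact hmem (x + 1) (by omega))
        intro x hx
        simp only [Nat.zero_le, if_true] at h
        by_cases hxt : x ≤ t
        · rcases Nat.eq_or_lt_of_le (show x ≤ m by omega) with hxm | hxm
          · omega
          · have := h x hxm
            rw [if_pos hxt] at this
            exact this
        · by_cases hxt1 : x = t + 1
          · subst hxt1
            rw [← het]
            have := h t (by omega)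
            rw [if_pos le_rfl] at this
            exact this
          · have := h (x - 1) (by omega)
            rw [if_neg (by omega), Nat.sub_add_cancel (by omega)] at this
            exact this
    · exfalso
      push Not at hex
      have : Nonempty σ := ⟨s⟩
      choose! p hp using (fun x hx => (hmem x hx).1)
      choose! q hq using (fun x hx => (hmem x hx).2)
      refine nb s d f hf e p q m hL ?_ ?_ ?_
      · intro t ht hpq
        have h1 : v t = v (t + 1) := by
          rw [← hp t (by omega), ← hq t (by omega), hpq]
        rcases Nat.lt_or_ge t m with h3 | h3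
        · have := hinj t (by omega) (t + 1) (by omega) h1
          omega
        · have h4 : t = m := by omega
          subst h4
          rw [hcl] at h1
          have := hinj t (by omega) 0 (by omega) h1
          omega
      · intro t ht
        refine ⟨?_, hex t (by omega)⟩
        rw [hq t (by omega), hp (t + 1) (by omega)]
      · rw [hp 0 (by omega), hq m (by omega), hcl]

end Gam

end Pool.Agent.SA33
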