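import Pool.Agent.SA33.Defs

set_option autoImplicit false

/-! The GLUE lemma. -/

namespace Pool.Agent.SA33

open SimpleGraph

universe u v w

theorem InC.comap {τ : Type*} {T : SimpleGraph τ} {k : ℕ} {V W : Type*} {G : SimpleGraph V}
    {H : SimpleGraph W} (hG : InC T k G) (e : H ↪g G) : InC T k H :=
  ⟨⟨fun f => hG.1.false (f.trans e)⟩, ⟨fun f => hG.2.false (f.trans e)⟩⟩

theorem InC.iso {τ : Type*} {T : SimpleGraph τ} {k : ℕ} {V W : Type*} {G : SimpleGraph V}
    {H : SimpleGraph W} (hG : InC T k G) (e : H ≃g G) : InC T k H :=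
  hG.comap e.toEmbedding

/-- In an embedding of a connected graph in a disjoint sum, one side is used. -/
theorem embed_sum {α V W : Type*} {T : SimpleGraph α} (hT : T.Connected) {G : SimpleGraph V}
    {H : SimpleGraph W} (f : T ↪g (G ⊕g H)) : Nonempty (T ↪g G) ∨ Nonempty (T ↪g H) := by
  classical
  obtain ⟨x0⟩ := hT.nonempty
  have key : ∀ x y, T.Reachable x y → ((f x).isLeft ↔ (f y).isLeft) := by
    intro x y h
    obtain ⟨p⟩ := h
    induction p with
    | nil => exact Iff.rfl
    | cons h p ih =>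
      refine Iff.trans ?_ ih
      have h' := f.map_adj_iff.2 h
      rename_i a b c
      rcases ha : f a with x | x <;> rcases hb : f b with y | y <;> rw [ha, hb] at h' <;> simp_all
  by_cases h0 : (f x0).isLeft
  · left
    have hl : ∀ x, ∃ v, f x = Sum.inl v := by
      intro x
      have := (key x0 x (hT.preconnected x0 x)).1 h0
      exact Sum.isLeft_iff.1 this
    choose g hg using hl
    refine ⟨⟨⟨g, ?_⟩, ?_⟩⟩
    · intro x y h
      apply f.injective
      rw [hg, hg, h]
    · intro x y
      have h1 := f.map_adj_iff (v := x) (w := y)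
      rw [hg, hg, SimpleGraph.sum_adj_inl] at h1
      exact h1
  · right
    have hr : ∀ x, ∃ v, f x = Sum.inr v := by
      intro x
      have : ¬ (f x).isLeft := fun h => h0 ((key x0 x (hT.preconnected x0 x)).2 h)
      rcases hx : f x with v | v
      · simp [hx] at this
      · exact ⟨v, rfl⟩
    choose g hg using hr
    refine ⟨⟨⟨g, ?_⟩, ?_⟩⟩
    · intro x y h
      apply f.injective
      rw [hg, hg, h]
    · intro x y
      have h1 := f.map_adj_iff (v := x) (w := y)
      rw [hg, hg, SimpleGraph.sum_adj_inr] at h1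
      exact h1

theorem top_connected {k : ℕ} (hk : 0 < k) : (⊤ : SimpleGraph (Fin k)).Connected := by
  have : Nonempty (Fin k) := ⟨⟨0, hk⟩⟩
  exact SimpleGraph.connected_top

/-- The class is closed under disjoint unions. -/
theorem InC.sum {τ : Type*} {T : SimpleGraph τ} (hT : T.Connected) {k : ℕ} (hk : 0 < k)
    {V W : Type*} {G : SimpleGraph V} {H : SimpleGraph W} (hG : InC T k G) (hH : InC T k H) :
    InC T k (G ⊕g H) := by
  refine ⟨⟨fun f => ?_⟩, ⟨fun f => ?_⟩⟩
  · rcases embed_sum hT f with g | g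
    · exact hG.1.false g.some
    · exact hH.1.false g.some
  · rcases embed_sum (top_connected hk) f with g | g
    · exact hG.2.false g.some
    · exact hH.2.false g.some

/-- If the class is unsplittable then every member is arrowed, for colours in any finite type. -/
theorem exists_arrow {m : ℕ} {T : SimpleGraph (Fin m)} {k : ℕ} (hns : ¬ Splittable T k)
    {V : Type*} [Finite V] (β : SimpleGraph V) (hβ : InC T k β) (K : Type*) [Finite K] :
    ∃ (p : ℕ) (γ : SimpleGraph (Fin p)), InC T k γ ∧
      ∀ f : Fin p → K, ∃ e : β ↪g γ, ∀ x y, f (e x) = f (e y) := by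
  classical
  obtain ⟨n, ⟨eV⟩⟩ := Finite.exists_equiv_fin V
  obtain ⟨c, ⟨eK⟩⟩ := Finite.exists_equiv_fin K
  let β' : SimpleGraph (Fin n) := β.comap eV.symm
  let iso : β ≃g β' := ⟨eV, by intro a b; simp [β']⟩
  have hβ' : InC T k β' := hβ.iso iso.symm
  by_contra hcon
  push Not at hcon
  apply hns
  refine ⟨c, n, β', hβ'.1, hβ'.2, ?_⟩
  intro p γ h1 h2
  obtain ⟨f, hf⟩ := hcon p γ ⟨h1, h2⟩
  refine ⟨fun x => eK (f x), fun e => ?_⟩
  obtain ⟨x, y, hxy⟩ := hf (iso.toEmbedding.trans e)
  exact ⟨iso x, iso y, fun h => hxy (eK.injective h)⟩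

/-- GLUE lemma (helper32). -/
theorem glue_lemma {m : ℕ} {T : SimpleGraph (Fin m)} (hT : T.Connected) {k : ℕ} (hk : 0 < k)
    (hns : ¬ Splittable T k) (hK : InC T k (⊤ : SimpleGraph (Fin 2)))
    {V W : Type*} [Finite V] [Nonempty V] [Finite W] [Nonempty W]
    (δ : SimpleGraph V) (H : SimpleGraph W) (hδ : InC T k δ) (hH : InC T k H) :
    ∃ (M : Set V) (A : Set W), M.Nonempty ∧ A.Nonempty ∧ InC T k (glue δ H M A) := by
  classical
  let _ : Fintype V := Fintype.ofFinite V
  let _ : Fintype W := Fintype.ofFinite W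
  obtain ⟨p, γ, hγ, harr⟩ := exists_arrow hns ((δ ⊕g H) ⊕g (⊤ : SimpleGraph (Fin 2)))
    ((hδ.sum hT hk hH).sum hT hk hK) (Option (W ⊕ Finset W))
  obtain ⟨w0⟩ := ‹Nonempty W›
  -- maximal anticomplete family
  let P : ℕ → Prop := fun s => ∃ h : Fin s → (H ↪g γ), ∀ i j, i ≠ j →
    ∀ a b, h i a ≠ h j b ∧ ¬ γ.Adj (h i a) (h j b)
  have hP0 : P 0 := ⟨fun i => i.elim0, fun i => i.elim0⟩
  have hPle : ∀ s, P s → s ≤ p := by
    rintro s ⟨h, hh⟩
    have : Function.Injective (fun i : Fin s => h i w0) := by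
      intro i j hij
      by_contra hne
      exact (hh i j hne w0 w0).1 hij
    simpa using Fintype.card_le_of_injective _ this
  obtain ⟨s, hs, hs1⟩ : ∃ s, P s ∧ ¬ P (s + 1) := by
    by_contra hcon
    push Not at hcon
    have : ∀ s, P s := by
      intro s
      induction s with
      | zero => exact hP0
      | succ s ih => exact hcon s ih
    have := hPle (p + 1) (this _)
    omega
  obtain ⟨h, hh⟩ := hs
  -- colouring
  let adjAt : Fin p → ℕ → Prop := fun v i => ∃ hi : i < s, ∃ a, γ.Adj v (h ⟨i, hi⟩ a)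
  let inH : Fin p → W → Prop := fun v a => ∃ i, h i a = v
  let idx : Fin p → ℕ := fun v => if hv : ∃ i, adjAt v i then Nat.find hv else 0
  let pat : Fin p → Finset W := fun v =>
    Finset.univ.filter (fun a => ∃ hi : idx v < s, γ.Adj v (h ⟨idx v, hi⟩ a))
  let col : Fin p → Option (W ⊕ Finset W) := fun v =>
    if hv : ∃ a, inH v a then some (Sum.inl (Classical.choose hv))
    else if ∃ i, adjAt v i then some (Sum.inr (pat v)) else none
  obtain ⟨e, he⟩ := harr col
  -- the three restrictions
  let eδ : δ ↪g γ := (SimpleGraph.Embedding.sumInl.trans SimpleGraph.Embedding.sumInl).trans e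
  let eH : H ↪g γ := (SimpleGraph.Embedding.sumInr.trans SimpleGraph.Embedding.sumInl).trans e
  let eK : (⊤ : SimpleGraph (Fin 2)) ↪g γ := SimpleGraph.Embedding.sumInr.trans e
  have hcol : ∃ c, (∀ x, col (eδ x) = c) ∧ (∀ x, col (eH x) = c) ∧ (∀ x, col (eK x) = c) := by
    refine ⟨col (e (Sum.inr 0)), ?_, ?_, ?_⟩
    · intro x; exact he _ _
    · intro x; exact he _ _
    · intro x; exact he _ _
  obtain ⟨c, hcδ, hcH, hcK⟩ := hcol
  rcases c with _ | (a | A)
  · -- none: H extends the family
    exfalso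
    apply hs1
    have hH' : ∀ x, (¬ ∃ a, inH (eH x) a) ∧ ¬ ∃ i, adjAt (eH x) i := by
      intro x
      have h1 := hcH x
      simp only [col] at h1
      split_ifs at h1 with h2 h3
      exact ⟨h2, h3⟩
    refine ⟨Fin.snoc (α := fun _ => H ↪g γ) h eH, ?_⟩
    intro i j hij a b
    induction i using Fin.lastCases with
    | last =>
      induction j using Fin.lastCases with
      | last => exact absurd rfl hij
      | cast j =>
        rw [Fin.snoc_last, Fin.snoc_castSucc]
        refine ⟨fun hab => (hH' a).1 ⟨b, j, hab.symm⟩, fun hab => (hH' a).2 ⟨j, j.2, b, hab⟩⟩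
    | cast i =>
      induction j using Fin.lastCases with
      | last =>
        rw [Fin.snoc_last, Fin.snoc_castSucc]
        refine ⟨fun hab => (hH' b).1 ⟨a, i, hab⟩, fun hab => (hH' b).2 ⟨i, i.2, a, hab.symm⟩⟩
      | cast j =>
        rw [Fin.snoc_castSucc, Fin.snoc_castSucc]
        exact hh i j (fun h => hij (by rw [h])) a b
  · -- position class: independent
    exfalso
    have hpos : ∀ x, ∃ i, h i a = eK x := by
      intro x
      have h1 := hcK x
      simp only [col] at h1
      split_ifs at h1 with h2 h3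
      · have h4 := Classical.choose_spec h2
        simp only [Option.some.injEq, Sum.inl.injEq] at h1
        rw [h1] at h4
        exact h4
      · simp at h1
    obtain ⟨i, hi⟩ := hpos 0
    obtain ⟨j, hj⟩ := hpos 1
    have hadj : γ.Adj (eK 0) (eK 1) := by
      rw [eK.map_adj_iff]
      simp
    rw [← hi, ← hj] at hadj
    by_cases hij : i = j
    · subst hij
      exact γ.loopless.irrefl _ hadj
    · exact (hh i j hij a a).2 hadj
  · -- pattern class
    have hpat : ∀ x, (¬ ∃ a, inH (eδ x) a) ∧ (∃ i, adjAt (eδ x) i) ∧ pat (eδ x) = A := by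
      intro x
      have h1 := hcδ x
      simp only [col] at h1
      split_ifs at h1 with h2 h3
      · simp at h1
      · simp only [Option.some.injEq, Sum.inr.injEq] at h1
        exact ⟨h2, h3, h1⟩
    have hidx : ∀ x, adjAt (eδ x) (idx (eδ x)) ∧ ∀ i, i < idx (eδ x) → ¬ adjAt (eδ x) i := by
      intro x
      have hx := (hpat x).2.1
      simp only [idx]
      rw [dif_pos hx]
      exact ⟨Nat.find_spec hx, fun i hi => Nat.find_min hx hi⟩
    obtain ⟨x0, hx0⟩ : ∃ x0, ∀ x, idx (eδ x0) ≤ idx (eδ x) := by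
      obtain ⟨x0, _, h0⟩ := Finset.exists_min_image (Finset.univ : Finset V)
        (fun x => idx (eδ x)) Finset.univ_nonempty
      exact ⟨x0, fun x => h0 x (Finset.mem_univ x)⟩
    obtain ⟨hi0, a0, ha0⟩ := (hidx x0).1
    set i0 := idx (eδ x0) with hi0def
    refine ⟨{x | idx (eδ x) = i0}, (A : Set W), ⟨x0, hi0def.symm⟩, ?_, ?_⟩
    · refine ⟨a0, ?_⟩
      rw [← (hpat x0).2.2]
      simp only [pat, Finset.coe_filter, Finset.mem_univ, true_and, Set.mem_ofPred_eq]
      exact ⟨hi0, ha0⟩
    · have hcross : ∀ x w, γ.Adj (eδ x) (h ⟨i0, hi0⟩ w) ↔ (idx (eδ x) = i0 ∧ w ∈ A) := by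
        intro x w
        constructor
        · intro hadj
          have h1 : idx (eδ x) = i0 := by
            rcases lt_or_eq_of_le (hx0 x) with hlt | heq
            · exact absurd ⟨hi0, w, hadj⟩ ((hidx x).2 i0 hlt)
            · exact heq.symm
          refine ⟨h1, ?_⟩
          rw [← (hpat x).2.2]
          simp only [pat, Finset.mem_filter, Finset.mem_univ, true_and]
          have : idx (eδ x) < s := by rw [h1]; exact hi0
          refine ⟨this, ?_⟩
          have h2 : (⟨idx (eδ x), this⟩ : Fin s) = ⟨i0, hi0⟩ := by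
            apply Fin.ext; exact h1
          rw [h2]
          exact hadj
        · rintro ⟨h1, hw⟩
          rw [← (hpat x).2.2] at hw
          simp only [pat, Finset.mem_filter, Finset.mem_univ, true_and] at hw
          obtain ⟨h2, h3⟩ := hw
          have h4 : (⟨idx (eδ x), h2⟩ : Fin s) = ⟨i0, hi0⟩ := by
            apply Fin.ext; exact h1
          rw [h4] at h3
          exact h3
      refine hγ.comap (G := γ) ⟨⟨Sum.elim eδ (h ⟨i0, hi0⟩), ?_⟩, ?_⟩
      · rintro (x | x) (y | y) hxy
        · simp only [Sum.elim_inl] at hxy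
          rw [eδ.injective hxy]
        · simp only [Sum.elim_inl, Sum.elim_inr] at hxy
          exact absurd ⟨y, ⟨i0, hi0⟩, hxy.symm⟩ (hpat x).1
        · simp only [Sum.elim_inl, Sum.elim_inr] at hxy
          exact absurd ⟨x, ⟨i0, hi0⟩, hxy⟩ (hpat y).1
        · simp only [Sum.elim_inr] at hxy
          rw [(h ⟨i0, hi0⟩).injective hxy]
      · rintro (x | x) (y | y)
        · exact eδ.map_adj_iff
        · exact hcross x y
        · exact (γ.adj_comm _ _).trans (hcross y x)
        · exact (h ⟨i0, hi0⟩).map_adj_iff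

end Pool.Agent.SA33
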