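import Pool.Agent.SA33.Blow

set_option autoImplicit false

/-! Complete multipartite hosts: stars rooted at the centre are good; star trees. -/

namespace Pool.Agent.SA33

open SimpleGraph

/-- The complete `r`-partite graph with parts of size `t`. -/
abbrev multi (r t : ℕ) : SimpleGraph (Fin r × Fin t) := blow (⊤ : SimpleGraph (Fin r)) (Fin t)

theorem multi_adj {r t : ℕ} (u v : Fin r × Fin t) : (multi r t).Adj u v ↔ u.1 ≠ v.1 := Iff.rfl

theorem multi_noClique {k t : ℕ} (hk : 1 ≤ k) :
    IsEmpty ((⊤ : SimpleGraph (Fin k)) ↪g multi (k - 1) t) := by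
  refine ⟨fun f => ?_⟩
  have hinj : Function.Injective (fun a => (f a).1) := by
    intro a b hab
    by_contra hne
    have h1 : (multi (k - 1) t).Adj (f a) (f b) := f.map_adj_iff.2 hne
    exact h1 hab
  have := Fintype.card_le_of_injective _ hinj
  rw [Fintype.card_fin, Fintype.card_fin] at this
  omega

/-- A graph containing an edge and a vertex not adjacent to its ends does not embed. -/
theorem multi_free {r t : ℕ} {τ : Type*} {T : SimpleGraph τ} {u v w : τ} (huv : T.Adj u v)
    (huw : ¬ T.Adj u w) (hvw : ¬ T.Adj v w) : IsEmpty (T ↪g multi r t) := by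
  refine ⟨fun f => ?_⟩
  have h1 : (f u).1 = (f w).1 := by
    by_contra h
    exact huw (f.map_adj_iff.1 h)
  have h2 : (f v).1 = (f w).1 := by
    by_contra h
    exact hvw (f.map_adj_iff.1 h)
  have h3 : (multi r t).Adj (f u) (f v) := f.map_adj_iff.2 huv
  exact h3 (h1.trans h2.symm)

/-- `S` is a star with centre `c`. -/
def IsStar {σ : Type*} (S : SimpleGraph σ) (c : σ) : Prop :=
  ∀ x y, S.Adj x y ↔ (x = c ∧ y ≠ c) ∨ (y = c ∧ x ≠ c)

theorem multi_star_free {r t : ℕ} {τ : Type*} [Finite τ] {T : SimpleGraph τ} {c : τ}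
    (hT : IsStar T c) (hcard : t + 1 < Nat.card τ) : IsEmpty (T ↪g multi r t) := by
  classical
  have := Fintype.ofFinite τ
  refine ⟨fun f => ?_⟩
  have hsame : ∀ x y, x ≠ c → y ≠ c → (f x).1 = (f y).1 := by
    intro x y hx hy
    by_contra h
    have h1 : T.Adj x y := f.map_adj_iff.1 h
    rw [hT] at h1
    rcases h1 with h1 | h1
    · exact hx h1.1
    · exact hy h1.1
  let g : {x : τ // x ≠ c} → Fin t := fun x => (f x).2
  have hg : Function.Injective g := by
    intro x y hxy
    apply Subtype.ext
    apply f.injective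
    exact Prod.ext (hsame x y x.2 y.2) hxy
  have h1 := Fintype.card_le_of_injective g hg
  rw [Fintype.card_fin, Fintype.card_subtype_compl, Fintype.card_subtype_eq] at h1
  rw [Nat.card_eq_fintype_card] at hcard
  omega

theorem multi_robust {k t : ℕ} {σ : Type*} [Finite σ] {S : SimpleGraph σ} {c : σ}
    (hS : IsStar S c) (hcard : Nat.card σ ≤ t + 1) : Robust S c k (multi (k - 1) t) := by
  classical
  have := Fintype.ofFinite σ
  rw [Nat.card_eq_fintype_card] at hcard
  intro M hM hMf
  -- a part avoiding `M`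
  have hex : ∃ j : Fin (k - 1), ∀ v ∈ M, v.1 ≠ j := by
    by_contra hcon
    push Not at hcon
    choose g hg1 hg2 using hcon
    have hinj : Function.Injective g := by
      intro a b hab
      rw [← hg2 a, ← hg2 b, hab]
    apply hMf (t := Finset.univ.image g)
    · intro x hx
      rw [Finset.mem_coe, Finset.mem_image] at hx
      obtain ⟨a, -, rfl⟩ := hx
      exact hg1 a
    · constructor
      · rw [SimpleGraph.isClique_iff]
        intro x hx y hy hxy
        rw [Finset.mem_coe, Finset.mem_image] at hx hy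
        obtain ⟨a, -, rfl⟩ := hx
        obtain ⟨b, -, rfl⟩ := hy
        rw [multi_adj, hg2, hg2]
        intro h
        exact hxy (by rw [h])
      · rw [Finset.card_image_of_injective _ hinj, Finset.card_univ, Fintype.card_fin]
  obtain ⟨j, hj⟩ := hex
  obtain ⟨m, hm⟩ := hM
  have hcard' : Fintype.card {x : σ // x ≠ c} ≤ Fintype.card (Fin t) := by
    rw [Fintype.card_fin, Fintype.card_subtype_compl, Fintype.card_subtype_eq]
    omega
  obtain ⟨ι⟩ := Function.Embedding.nonempty_of_card_le hcard'
  let φ : σ → Fin (k - 1) × Fin t := fun x => if h : x = c then m else (j, ι ⟨x, h⟩)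
  have hφc : φ c = m := by simp [φ]
  have hφ : ∀ x (h : x ≠ c), φ x = (j, ι ⟨x, h⟩) := by
    intro x h
    simp only [φ]
    rw [dif_neg h]
  have hmj : m.1 ≠ j := hj m hm
  refine ⟨⟨⟨φ, ?_⟩, ?_⟩, ?_, ?_⟩
  · intro x y hxy
    by_cases hx : x = c
    · by_cases hy : y = c
      · exact hx.trans hy.symm
      · rw [hx, hφc, hφ y hy] at hxy
        exact absurd (congrArg Prod.fst hxy) hmj
    · by_cases hy : y = c
      · rw [hy, hφc, hφ x hx] at hxy
        exact absurd (congrArg Prod.fst hxy).symm hmj
      · rw [hφ x hx, hφ y hy] at hxy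
        have := ι.injective (congrArg Prod.snd hxy)
        exact congrArg Subtype.val this
  · intro x y
    change (multi (k - 1) t).Adj (φ x) (φ y) ↔ S.Adj x y
    rw [multi_adj, hS]
    by_cases hx : x = c
    · by_cases hy : y = c
      · rw [hx, hy]
        simp
      · rw [hx, hφc, hφ y hy]
        simp [hmj, hy]
    · by_cases hy : y = c
      · rw [hy, hφc, hφ x hx]
        simp [hmj.symm, hx]
      · rw [hφ x hx, hφ y hy]
        simp [hx, hy]
  · change φ c ∈ M
    rw [hφc]; exact hm
  · intro x hx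
    change φ x ∉ M
    rw [hφ x hx]
    intro h
    exact hj _ h rfl

/-- Stars rooted at the centre are good for trees which are not stars. -/
theorem good_star {τ : Type*} {T : SimpleGraph τ} {u v w : τ} (huv : T.Adj u v)
    (huw : ¬ T.Adj u w) (hvw : ¬ T.Adj v w) {k : ℕ} (hk : 2 ≤ k) {σ : Type*} [Finite σ]
    {S : SimpleGraph σ} {c : σ} (hS : IsStar S c) : Good T k S c := by
  have hne : Nonempty (Fin (k - 1) × Fin (Nat.card σ)) := by
    have h1 : 0 < k - 1 := by omega
    have : Nonempty σ := ⟨c⟩
    have h2 : 0 < Nat.card σ := Nat.card_pos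
    exact ⟨(⟨0, h1⟩, ⟨0, h2⟩)⟩
  exact good_of_robust (V := Fin (k - 1) × Fin (Nat.card σ))
    ⟨multi_free huv huw hvw, multi_noClique (by omega)⟩ (multi_robust hS (by omega))

/-- Star trees are splittable. -/
theorem splittable_star {m : ℕ} {T : SimpleGraph (Fin m)} {c : Fin m} (hT : IsStar T c)
    (hm : 3 ≤ m) {k : ℕ} (hk : 3 ≤ k) : Splittable T k := by
  classical
  -- a leaf
  have hex : ∃ l : Fin m, l ≠ c := by
    by_contra hcon
    push Not at hcon
    have : Fintype.card (Fin m) ≤ 1 :=
      Fintype.card_le_one_iff.2 (fun a b => (hcon a).trans (hcon b).symm)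
    rw [Fintype.card_fin] at this
    omega
  obtain ⟨l, hl⟩ := hex
  have hconn : T.Connected := by
    have : Nonempty (Fin m) := ⟨c⟩
    refine ⟨fun x y => ?_⟩
    have key : ∀ x, T.Reachable x c := by
      intro x
      by_cases hx : x = c
      · rw [hx]
      · exact (SimpleGraph.Adj.reachable (((hT x c).2 (Or.inr ⟨rfl, hx⟩))))
    exact (key x).trans (key y).symm
  have hKcard : InC T k (⊤ : SimpleGraph (Fin 2)) := by
    refine ⟨⟨fun f => ?_⟩, ⟨fun f => ?_⟩⟩
    · have := Fintype.card_le_of_injective _ f.injective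
      rw [Fintype.card_fin, Fintype.card_fin] at this
      omega
    · have := Fintype.card_le_of_injective _ f.injective
      rw [Fintype.card_fin, Fintype.card_fin] at this
      omega
  let σ := {x : Fin m // x ≠ l}
  let S : SimpleGraph σ := T.comap Subtype.val
  have hSstar : IsStar S (⟨c, hl.symm⟩ : σ) := by
    intro x y
    change T.Adj x.1 y.1 ↔ _
    rw [hT]
    have key : ∀ z : σ, z.1 = c ↔ z = ⟨c, hl.symm⟩ := fun z =>
      ⟨fun h => Subtype.ext h, fun h => congrArg Subtype.val h⟩
    rw [ne_eq, ne_eq, key, key]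
  have hσ : Nat.card σ = m - 1 := by
    rw [Nat.card_eq_fintype_card, Fintype.card_subtype_compl, Fintype.card_subtype_eq,
      Fintype.card_fin]
  have hGood : Good T k S (⟨c, hl.symm⟩ : σ) := by
    have hne : Nonempty (Fin (k - 1) × Fin (m - 2)) :=
      ⟨(⟨0, by omega⟩, ⟨0, by omega⟩)⟩
    refine good_of_robust (V := Fin (k - 1) × Fin (m - 2))
      ⟨multi_star_free hT ?_, multi_noClique (by omega)⟩ (multi_robust hSstar ?_)
    · rw [Nat.card_eq_fintype_card, Fintype.card_fin]; omega
    · rw [hσ]; omega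
  have hGood' : Good T k (⊥ : SimpleGraph Unit) () := by
    obtain ⟨n, G, hn, hG, -⟩ := hGood
    refine ⟨n, G, hn, hG, ?_⟩
    rintro B ⟨b, hb⟩ -
    refine ⟨⟨⟨fun _ => b, fun _ _ _ => rfl⟩, ?_⟩, hb, fun x hx => absurd rfl hx⟩
    intro x y
    exact ⟨fun h => absurd h (G.loopless.irrefl _), fun h => h.elim⟩
  refine edge_criterion hconn (by omega) hKcard S (⟨c, hl.symm⟩ : σ) (⊥ : SimpleGraph Unit) ()
    ?_ hGood hGood'
  refine ⟨⟨⟨fun x => if h : x = l then Sum.inr () else Sum.inl ⟨x, h⟩, ?_⟩, ?_⟩⟩
  · intro x y hxy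
    by_cases hx : x = l
    · by_cases hy : y = l
      · exact hx.trans hy.symm
      · simp [hx, hy] at hxy
    · by_cases hy : y = l
      · simp [hx, hy] at hxy
      · simp only [hx, hy, dite_false, Sum.inl.injEq] at hxy
        exact congrArg Subtype.val hxy
  · intro x y
    change (glue S (⊥ : SimpleGraph Unit) {(⟨c, hl.symm⟩ : σ)} {()}).Adj
      (if h : x = l then Sum.inr () else Sum.inl ⟨x, h⟩)
      (if h : y = l then Sum.inr () else Sum.inl ⟨y, h⟩) ↔ _
    by_cases hx : x = l
    · by_cases hy : y = l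
      · rw [dif_pos hx, dif_pos hy, hx, hy]
        exact ⟨fun h => absurd h id, fun h => absurd h (T.loopless.irrefl _)⟩
      · rw [dif_pos hx, dif_neg hy, hx]
        change (_ ∧ _) ↔ _
        rw [hT]
        simp only [Set.mem_singleton_iff, and_true]
        constructor
        · intro h
          exact Or.inr ⟨congrArg Subtype.val h, hl⟩
        · rintro (h | h)
          · exact absurd h.1 hl
          · exact Subtype.ext h.1
    · by_cases hy : y = l
      · rw [dif_neg hx, dif_pos hy, hy]
        change (_ ∧ _) ↔ _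
        rw [hT]
        simp only [Set.mem_singleton_iff, and_true]
        constructor
        · intro h
          exact Or.inl ⟨congrArg Subtype.val h, hl⟩
        · rintro (h | h)
          · exact Subtype.ext h.1
          · exact absurd h.1 hl
      · rw [dif_neg hx, dif_neg hy]
        exact Iff.rfl

end Pool.Agent.SA33
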