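import Pool.Agent.SA33.Host

set_option autoImplicit false

/-! A rooted host with enough hyperedges at every vertex is robust. -/

namespace Pool.Agent.SA33

open SimpleGraph Pool.Agent.SA97

/-- Pigeonhole for increasing properties of finitely many objects. -/
theorem exists_stable {α : Type*} [Fintype α] (P : ℕ → α → Prop)
    (hP : ∀ t t', t ≤ t' → ∀ c, P t c → P t' c) :
    ∃ t ≤ Fintype.card α, ∀ c, P (t + 1) c → P t c := by
  classical
  by_contra hcon
  push Not at hcon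
  have hcon' : ∀ t : Fin (Fintype.card α + 1), ∃ c, P (t + 1) c ∧ ¬ P t c := fun t =>
    hcon t (by omega)
  choose c h1 h2 using hcon'
  have hinj : Function.Injective c := by
    have key : ∀ a b : Fin (Fintype.card α + 1), a < b → c a ≠ c b := by
      intro a b hab h
      exact h2 b (h ▸ hP (a + 1) b (Fin.lt_def.1 hab) _ (h1 a))
    intro a b hab
    rcases lt_trichotomy a b with h | h | h
    · exact absurd hab (key a b h)
    · exact h
    · exact absurd hab.symm (key b a h)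
  have := Fintype.card_le_of_injective c hinj
  rw [Fintype.card_fin] at this
  omega

namespace RHost

variable {k L D : ℕ} {σ : Type} {S : SimpleGraph σ} {d : σ → ℕ} {s : σ} {V : Type}
  {G : SimpleGraph V}

/-- `u` and `v` lie in a common hyperedge. -/
def Tog (H : RHost k L D S d s G) (u v : V) : Prop :=
  ∃ e, u ∈ Set.range (H.vtx e) ∧ v ∈ Set.range (H.vtx e)

theorem select (H : RHost k L D S d s G) (hL : 4 ≤ L) (hd0 : ∀ x, d x = 0 ↔ x = s) (m : V)
    (j : ZMod (2 * k - 1)) (h1 : Far (H.cls m) j) (h2 : Far (H.cls m + 1) j) (M : Set V)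
    (W : Finset V) (hW : W.card < D)
    (hM : ∀ v ∈ M, v ≠ m → (H.cls v = j ∨ H.cls v = H.cls m + 1) →
      ∃ w ∈ W, w ≠ m ∧ (v = w ∨ H.Tog w v)) :
    ∃ e, H.vtx e s = m ∧ ∀ p, p ≠ s → H.vtx e p ∉ M := by
  classical
  obtain ⟨r, hr, hr2⟩ := H.root m j h1 h2
  by_contra hcon
  push Not at hcon
  have hcon' : ∀ a : Fin D, ∃ p, p ≠ s ∧ H.vtx (r a) p ∈ M := fun a =>
    hcon (r a) (hr2 a).2.2
  choose p hp1 hp2 using hcon'
  have hne : ∀ a, H.vtx (r a) (p a) ≠ m := by
    intro a h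
    rw [← (hr2 a).2.2] at h
    exact hp1 a (H.inj _ h)
  have hcls : ∀ a, H.cls (H.vtx (r a) (p a)) = j ∨ H.cls (H.vtx (r a) (p a)) = H.cls m + 1 := by
    intro a
    rw [H.cls_vtx, (hr2 a).1, (hr2 a).2.1]
    unfold tcl
    rw [if_neg (fun h => hp1 a ((hd0 _).1 h))]
    split
    · exact Or.inl rfl
    · exact Or.inr rfl
  have hw : ∀ a, ∃ w ∈ W, w ≠ m ∧ (H.vtx (r a) (p a) = w ∨ H.Tog w (H.vtx (r a) (p a))) :=
    fun a => hM _ (hp2 a) (hne a) (hcls a)
  choose w hw1 hw2 hw3 using hw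
  have hnotinj : ∃ a b : Fin D, a ≠ b ∧ w a = w b := by
    by_contra hc
    push Not at hc
    have hi : Function.Injective w := by
      intro a b hab
      by_contra hne
      exact hc a b hne hab
    have h3 : (Finset.univ.image w).card = D := by
      rw [Finset.card_image_of_injective _ hi, Finset.card_univ, Fintype.card_fin]
    have h4 : (Finset.univ.image w).card ≤ W.card := by
      apply Finset.card_le_card
      intro x hx
      rw [Finset.mem_image] at hx
      obtain ⟨a, -, rfl⟩ := hx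
      exact hw1 a
    omega
  obtain ⟨a, b, hab, hwab⟩ := hnotinj
  have hrab : r a ≠ r b := fun h => hab (hr h)
  have hma : m ∈ Set.range (H.vtx (r a)) := ⟨s, (hr2 a).2.2⟩
  have hmb : m ∈ Set.range (H.vtx (r b)) := ⟨s, (hr2 b).2.2⟩
  have hva : H.vtx (r a) (p a) ∈ Set.range (H.vtx (r a)) := ⟨_, rfl⟩
  have hvb : H.vtx (r b) (p b) ∈ Set.range (H.vtx (r b)) := ⟨_, rfl⟩
  have hvv : H.vtx (r a) (p a) ≠ H.vtx (r b) (p b) := by
    intro h
    apply hrab
    exact H.linear (by omega) (hne a).symm hma hva hmb (h ▸ hvb)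
  have hwa := hw3 a
  have hwb := hw3 b
  rw [← hwab] at hwb
  by_cases ha : H.vtx (r a) (p a) = w a
  · rcases hwb with hwb | ⟨e', he1, he2⟩
    · exact hvv (ha.trans hwb.symm)
    · have h5 := H.acyc3 (by omega) (e := r a) (f := e') (g := r b) (hne a).symm hvv
        (hne b).symm hma hva (ha.symm ▸ he1) he2 hvb hmb
      exact hrab (h5.1.trans h5.2)
  · by_cases hb : H.vtx (r b) (p b) = w a
    · rcases hwa with hwa | ⟨e', he1, he2⟩
      · exact ha hwa
      · have h5 := H.acyc3 (by omega) (e := r b) (f := e') (g := r a) (hne b).symm hvv.symm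
          (hne a).symm hmb hvb (hb.symm ▸ he1) he2 hva hma
        exact hrab (h5.1.trans h5.2).symm
    · rcases hwa with hwa | ⟨e1, he1, he2⟩
      · exact ha hwa
      · rcases hwb with hwb | ⟨e2, he3, he4⟩
        · exact hb hwb
        · have h5 := H.acyc4 (by omega) (e := r a) (f := e1) (g := e2) (h := r b)
            (a := m) (b := H.vtx (r a) (p a)) (c := w a) (x := H.vtx (r b) (p b))
            (hne a).symm ha (hw2 a).symm (hne b).symm hvv (fun h => hb h.symm)
            hma hva he2 he1 he3 he4 hvb hmb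
          exact hrab h5.2.2

/-- The class `c` is covered by `β` neighbourhoods. -/
def Cov (H : RHost k L D S d s G) (M : Set V) (β : ℕ) (c : ZMod (2 * k - 1)) : Prop :=
  ∃ W : Finset V, W.card ≤ β ∧ ∀ v ∈ M, H.cls v = c → ∃ w ∈ W, H.Tog w v

theorem greedy (H : RHost k L D S d s G) (M : Set V) (β : ℕ) (hβ : k ≤ β)
    (t : Finset (ZMod (2 * k - 1))) (ht : t.card ≤ k - 1)
    (hfar : ∀ x ∈ t, ∀ y ∈ t, x ≠ y → Far x y) (hbig : ∀ c ∈ t, ¬ H.Cov M β c) :
    ∃ Q : Finset V, (∀ x ∈ Q, x ∈ M) ∧ G.IsNClique t.card Q ∧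
      ∀ x ∈ Q, H.cls x ∈ t := by
  classical
  induction t using Finset.induction_on with
  | empty =>
    refine ⟨∅, by simp, ?_, by simp⟩
    simp
  | insert c t hc ih =>
    rw [Finset.card_insert_of_notMem hc] at ht
    obtain ⟨Q, hQ1, hQ2, hQ3⟩ := ih (by omega)
      (fun x hx y hy => hfar x (Finset.mem_insert_of_mem hx) y (Finset.mem_insert_of_mem hy))
      (fun x hx => hbig x (Finset.mem_insert_of_mem hx))
    have hQc : Q.card = t.card := hQ2.2
    have hex : ∃ y ∈ M, H.cls y = c ∧ ∀ u ∈ Q, ¬ H.Tog u y := by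
      by_contra hcon
      push Not at hcon
      exact hbig c (Finset.mem_insert_self _ _) ⟨Q, by omega, hcon⟩
    obtain ⟨y, hyM, hyc, hyQ⟩ := hex
    have hadj : ∀ u ∈ Q, G.Adj y u := by
      intro u hu
      have hf : Far (H.cls y) (H.cls u) := by
        rw [hyc]
        exact hfar c (Finset.mem_insert_self _ _) _ (Finset.mem_insert_of_mem (hQ3 u hu))
          (fun h => hc (h ▸ hQ3 u hu))
      by_contra hna
      obtain ⟨e, p, q, hp, hq⟩ := H.cov _ _ hf hna
      exact hyQ u hu ⟨e, ⟨q, hq⟩, ⟨p, hp⟩⟩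
    refine ⟨insert y Q, ?_, ?_, ?_⟩
    · intro x hx
      rw [Finset.mem_insert] at hx
      rcases hx with rfl | hx
      · exact hyM
      · exact hQ1 x hx
    · rw [Finset.card_insert_of_notMem hc]
      exact hQ2.insert hadj
    · intro x hx
      rw [Finset.mem_insert] at hx ⊢
      rcases hx with rfl | hx
      · exact Or.inl hyc
      · exact Or.inr (hQ3 x hx)

theorem exists_type {k : ℕ} (hk : 3 ≤ k) (i : ZMod (2 * k - 1)) :
    ∃ j, Far i j ∧ Far (i + 1) j := by
  refine ⟨i + ((3 : ℕ) : ZMod _), far_add i (by omega) (by omega), ?_⟩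
  have h : i + ((3 : ℕ) : ZMod (2 * k - 1)) = (i + 1) + ((2 : ℕ) : ZMod (2 * k - 1)) := by
    push_cast; ring
  rw [h]
  exact far_add _ (by omega) (by omega)

theorem robust [Finite V] (H : RHost k L D S d s G) (hk : 3 ≤ k) (hL : 4 ≤ L)
    (hd0 : ∀ x, d x = 0 ↔ x = s) (hD : k * (2 * k - 1) ^ (2 * k) < D) : Robust S s k G := by
  classical
  have : NeZero (2 * k - 1) := ⟨by omega⟩
  intro M hM hMf
  -- it is enough to find a suitable hyperedge
  suffices hsuff : ∃ e, H.vtx e s ∈ M ∧ ∀ p, p ≠ s → H.vtx e p ∉ M by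
    obtain ⟨e, he1, he2⟩ := hsuff
    exact ⟨⟨⟨H.vtx e, H.inj e⟩, fun {a b} => H.adj_vtx e a b⟩, he1, he2⟩
  have hN : 0 < 2 * k - 1 := by omega
  obtain ⟨t, ht, hst⟩ := exists_stable (fun t c => H.Cov M (k * (2 * k - 1) ^ t) c) (by
    intro t t' htt c hc
    obtain ⟨W, hW, hW2⟩ := hc
    refine ⟨W, hW.trans ?_, hW2⟩
    exact Nat.mul_le_mul_left _ (Nat.pow_le_pow_right hN htt))
  rw [ZMod.card] at ht
  set β := k * (2 * k - 1) ^ t with hβdef
  have hβ : k ≤ β := by
    rw [hβdef]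
    exact Nat.le_mul_of_pos_right _ (Nat.pow_pos hN)
  have hβ' : k * (2 * k - 1) ^ (t + 1) = (2 * k - 1) * β := by
    rw [hβdef, pow_succ]; ring
  have hβD : (2 * k - 1) * β < D := by
    refine lt_of_le_of_lt ?_ hD
    rw [← hβ']
    exact Nat.mul_le_mul_left _ (Nat.pow_le_pow_right hN (by omega))
  -- the covering set
  have hcov : ∀ c : ZMod (2 * k - 1), ∃ W : Finset V, W.card ≤ β ∧
      (H.Cov M β c → ∀ v ∈ M, H.cls v = c → ∃ w ∈ W, H.Tog w v) := by
    intro c
    by_cases hc : H.Cov M β c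
    · obtain ⟨W, h1, h2⟩ := hc
      exact ⟨W, h1, fun _ => h2⟩
    · exact ⟨∅, by simp, fun h => absurd h hc⟩
  choose Wc hWc1 hWc2 using hcov
  let W : Finset V := Finset.univ.biUnion Wc
  have hWcard : W.card ≤ (2 * k - 1) * β := by
    refine (Finset.card_biUnion_le).trans ?_
    refine (Finset.sum_le_sum (fun c _ => hWc1 c)).trans ?_
    simp [ZMod.card]
  have hWcov : ∀ v ∈ M, H.Cov M β (H.cls v) → ∃ w ∈ W, H.Tog w v := by
    intro v hv hc
    obtain ⟨w, hw, hw2⟩ := hWc2 _ hc v hv rfl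
    exact ⟨w, Finset.mem_biUnion.2 ⟨_, Finset.mem_univ _, hw⟩, hw2⟩
  by_cases hF : ∃ c, ¬ H.Cov M β c
  · obtain ⟨i, hi, hi1, j, hj, h1, h2⟩ := exists_path hk {c | ¬ H.Cov M β c} hF (by
      intro q hq hfar
      by_contra hcon
      push Not at hcon
      obtain ⟨q', hq'q, hq'c⟩ := Finset.exists_subset_card_eq hcon
      obtain ⟨Q, hQ1, hQ2, -⟩ := H.greedy M β hβ q' hq'c.le
        (fun x hx y hy => hfar x (hq'q hx) y (hq'q hy)) (fun c hc => hq c (hq'q hc))
      rw [hq'c] at hQ2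
      exact hMf (fun x hx => hQ1 x hx) hQ2)
    simp only [Set.mem_setOf_eq, not_not] at hi hi1 hj
    have hi' : ¬ H.Cov M ((2 * k - 1) * β) i := by
      intro h
      rw [← hβ'] at h
      exact hi (hst i h)
    have hm : ∃ m ∈ M, H.cls m = i ∧ ∀ w ∈ W, ¬ H.Tog w m := by
      by_contra hcon
      push Not at hcon
      exact hi' ⟨W, hWcard, hcon⟩
    obtain ⟨m, hmM, hmi, hmW⟩ := hm
    subst hmi
    obtain ⟨r, -, hr2⟩ := H.root m j h1 h2
    have hself : H.Tog m m := by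
      refine ⟨r ⟨0, by omega⟩, ?_, ?_⟩ <;> exact ⟨s, (hr2 _).2.2⟩
    have hmnW : m ∉ W := fun h => hmW m h hself
    obtain ⟨e, he1, he2⟩ := H.select hL hd0 m j h1 h2 M W (lt_of_le_of_lt hWcard hβD) (by
      intro v hv _ hvc
      have hvcov : H.Cov M β (H.cls v) := by
        rcases hvc with h | h
        · rw [h]; exact hj
        · rw [h]; exact hi1
      obtain ⟨w, hw, hw2⟩ := hWcov v hv hvcov
      exact ⟨w, hw, fun h => hmnW (h ▸ hw), Or.inr hw2⟩)
    exact ⟨e, he1.symm ▸ hmM, he2⟩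
  · push Not at hF
    by_cases hsub : ∃ m ∈ M, m ∉ W
    · obtain ⟨m, hmM, hmW⟩ := hsub
      obtain ⟨j, h1, h2⟩ := exists_type hk (H.cls m)
      obtain ⟨e, he1, he2⟩ := H.select hL hd0 m j h1 h2 M W (lt_of_le_of_lt hWcard hβD) (by
        intro v hv _ _
        obtain ⟨w, hw, hw2⟩ := hWcov v hv (hF _)
        exact ⟨w, hw, fun h => hmW (h ▸ hw), Or.inr hw2⟩)
      exact ⟨e, he1.symm ▸ hmM, he2⟩
    · push Not at hsub
      obtain ⟨m, hmM⟩ := hM
      obtain ⟨j, h1, h2⟩ := exists_type hk (H.cls m)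
      obtain ⟨e, he1, he2⟩ := H.select hL hd0 m j h1 h2 M W (lt_of_le_of_lt hWcard hβD) (by
        intro v hv hvm _
        exact ⟨v, hsub v hv, hvm, Or.inl rfl⟩)
      exact ⟨e, he1.symm ▸ hmM, he2⟩

end RHost

end Pool.Agent.SA33
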