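import Pool.Agent.SA33.Pg
import Pool.Agent.SA33.Multi

set_option autoImplicit false

/-! Transfer from a twin-free tree `T'` to all trees with twin reduction `T'`. -/

namespace Pool.Agent.SA33

open SimpleGraph Pool.Agent.SA97

/-- No cycle of length four. -/
theorem no_c4 {τ : Type*} {T : SimpleGraph τ} (hT : T.IsAcyclic) {x y z w : τ} (hzw : z ≠ w)
    (h1 : T.Adj x z) (h2 : T.Adj x w) (h3 : T.Adj y z) (h4 : T.Adj y w) : x = y := by
  let p : T.Walk z w := .cons h1.symm (.cons h2 .nil)
  let q : T.Walk z w := .cons h3.symm (.cons h4 .nil)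
  have hp : p.IsPath := by
    simp [p, SimpleGraph.Walk.cons_isPath_iff, h1.ne.symm, h2.ne, hzw]
  have hq : q.IsPath := by
    simp [q, SimpleGraph.Walk.cons_isPath_iff, h3.ne.symm, h4.ne, hzw]
  have h := hT.path_unique ⟨p, hp⟩ ⟨q, hq⟩
  have h5 : p.support = q.support := by
    have := congrArg Subtype.val h
    simp only at this
    rw [this]
  have h6 : [z, x, w] = [z, y, w] := h5
  simp only [List.cons.injEq, and_true, true_and] at h6
  exact h6

theorem Good.mono {τ : Type*} {T : SimpleGraph τ} {k : ℕ} {σ σ' : Type*} {S : SimpleGraph σ}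
    {s : σ} {S' : SimpleGraph σ'} {s' : σ'} (h : Good T k S s) (e : S' ↪g S) (he : e s' = s) :
    Good T k S' s' := by
  obtain ⟨n, G, hn, hG, hr⟩ := h
  exact ⟨n, G, hn, hG, hr.mono e he⟩

theorem PG.transfer {τ' : Type} {T' : SimpleGraph τ'} {k : ℕ} (hk : 3 ≤ k) {m : ℕ}
    {T : SimpleGraph (Fin m)} (hTc : T.Connected) (hns : ¬ Splittable T k)
    (hK : InC T k (⊤ : SimpleGraph (Fin (k - 1)))) (πT : Fin m → τ')
    (hsurj : Function.Surjective πT) (hπT : ∀ x y, T.Adj x y ↔ T'.Adj (πT x) (πT y))
    (htw : TwinFree T') {u v w : Fin m} (huv : T.Adj u v) (huw : ¬ T.Adj u w)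
    (hvw : ¬ T.Adj v w) {σ' : Type} {S' : SimpleGraph σ'} {s' : σ'} (h : PG T' k S' s') :
    ∀ {σ : Type} [Finite σ] (S : SimpleGraph σ) (s : σ) (π : σ → σ'), Function.Surjective π →
      (∀ x y, S.Adj x y ↔ S'.Adj (π x) (π y)) → (∀ x, π x = s' ↔ x = s) →
      (∀ x y z w, z ≠ w → S'.Adj (π x) z → S'.Adj (π x) w → π x = π y → x = y) →
      Good T k S s := by
  induction h with
  | good h =>
    intro σ _ S s π _ hπ hs _
    exact good_blow πT hsurj hπT htw π hπ hs h
  | leaf =>
    intro σ _ S s π _ hπ hs _
    refine good_star huv huw hvw (by omega) ?_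
    intro x y
    rw [hπ]
    have key : ∀ z, π z ≠ none ↔ z ≠ s := fun z => not_congr (hs z)
    constructor
    · intro hxy
      rcases hx : π x with _ | a
      · rcases hy : π y with _ | b
        · rw [hx, hy] at hxy; exact hxy.elim
        · left
          refine ⟨(hs x).1 hx, (key y).1 ?_⟩
          rw [hy]; simp
      · rcases hy : π y with _ | b
        · right
          refine ⟨(hs y).1 hy, (key x).1 ?_⟩
          rw [hx]; simp
        · rw [hx, hy] at hxy; exact hxy.elim
    · rintro (⟨hx, hy⟩ | ⟨hy, hx⟩)
      · rw [(hs x).2 hx]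
        rcases hy' : π y with _ | b
        · exact absurd ((hs y).1 hy') hy
        · exact rfl
      · rw [(hs y).2 hy]
        rcases hx' : π x with _ | b
        · exact absurd ((hs x).1 hx') hx
        · exact rfl
  | @fwd σ' S' s' h hs' ih =>
    intro σ _ S s π hπsurj hπ hs huniq
    classical
    obtain ⟨x', hx'⟩ := hs'
    let σ₁ := {x : σ // x ≠ s}
    have hsome : ∀ x : σ₁, ∃ a, π x.1 = some a := by
      intro x
      rcases hx : π x.1 with _ | a
      · exact absurd ((hs x.1).1 hx) x.2
      · exact ⟨a, rfl⟩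
    choose π₁ hπ₁ using hsome
    obtain ⟨c, hc⟩ := hπsurj (some s')
    have hcs : c ≠ s := by
      intro hcs
      rw [(hs c).2 hcs] at hc
      exact absurd hc (by simp)
    have hcu : ∀ x, π x = some s' → x = c := by
      intro x hx
      refine huniq x c none (some x') (by simp) ?_ ?_ (hx.trans hc.symm)
      · rw [hx]; exact rfl
      · rw [hx]; exact hx'
    have hG := ih (σ := σ₁) (S.comap Subtype.val) ⟨c, hcs⟩ π₁ (by
        intro y
        obtain ⟨x, hx⟩ := hπsurj (some y)
        have hxs : x ≠ s := by
          intro h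
          rw [(hs x).2 h] at hx
          exact absurd hx (by simp)
        refine ⟨⟨x, hxs⟩, ?_⟩
        have := hπ₁ ⟨x, hxs⟩
        rw [hx] at this
        exact (Option.some.inj this).symm) (by
        intro x y
        change S.Adj x.1 y.1 ↔ _
        rw [hπ, hπ₁ x, hπ₁ y]
        exact Iff.rfl) (by
        intro x
        constructor
        · intro h
          apply Subtype.ext
          apply hcu
          rw [hπ₁ x, h]
        · intro h
          have h2 := hπ₁ x
          rw [h] at h2
          rw [hc] at h2
          rw [h]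
          exact (Option.some.inj h2).symm) (by
        intro x y z w hzw h1 h2 h3
        apply Subtype.ext
        refine huniq x.1 y.1 (some z) (some w) (fun h => hzw (Option.some.inj h)) ?_ ?_ ?_
        · rw [hπ₁ x]; exact h1
        · rw [hπ₁ x]; exact h2
        · rw [hπ₁ x, hπ₁ y, h3])
    have hF := good_fwd hTc hk hns hK hG
    have hsnone : π s = none := (hs s).2 rfl
    refine hF.mono ⟨⟨fun x => if hx : x = s then none else some ⟨x, hx⟩, ?_⟩, ?_⟩ (by simp)
    · intro x y hxy
      by_cases hx : x = s
      · by_cases hy : y = s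
        · exact hx.trans hy.symm
        · simp [hx, hy] at hxy
      · by_cases hy : y = s
        · simp [hx, hy] at hxy
        · simp only [hx, hy, dite_false, Option.some.injEq] at hxy
          exact congrArg Subtype.val hxy
    · intro x y
      change (Pool.Agent.SA97.fwd (S.comap Subtype.val) (⟨c, hcs⟩ : σ₁)).Adj
        (if hx : x = s then none else some ⟨x, hx⟩)
        (if hy : y = s then none else some ⟨y, hy⟩) ↔ _
      by_cases hx : x = s
      · by_cases hy : y = s
        · rw [dif_pos hx, dif_pos hy, hx, hy]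
          exact ⟨fun h => h.elim, fun h => absurd h (S.loopless.irrefl _)⟩
        · rw [dif_pos hx, dif_neg hy, hx]
          change (⟨y, hy⟩ : σ₁) = ⟨c, hcs⟩ ↔ _
          rw [hπ, hsnone, hπ₁ ⟨y, hy⟩]
          change _ ↔ π₁ ⟨y, hy⟩ = s'
          constructor
          · intro h
            have h2 := hπ₁ ⟨y, hy⟩
            rw [h] at h2 ⊢
            rw [hc] at h2
            exact (Option.some.inj h2).symm
          · intro h
            apply Subtype.ext
            apply hcu
            rw [← h]
            exact hπ₁ ⟨y, hy⟩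
      · by_cases hy : y = s
        · rw [dif_neg hx, dif_pos hy, hy]
          change (⟨x, hx⟩ : σ₁) = ⟨c, hcs⟩ ↔ _
          rw [hπ, hsnone, hπ₁ ⟨x, hx⟩]
          change _ ↔ π₁ ⟨x, hx⟩ = s'
          constructor
          · intro h
            have h2 := hπ₁ ⟨x, hx⟩
            rw [h] at h2 ⊢
            rw [hc] at h2
            exact (Option.some.inj h2).symm
          · intro h
            apply Subtype.ext
            apply hcu
            rw [← h]
            exact hπ₁ ⟨x, hx⟩
        · rw [dif_neg hx, dif_neg hy]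
          exact Iff.rfl
  | @iso σ' σ'' S' S'' s' h e ih =>
    intro σ _ S s π hπsurj hπ hs huniq
    refine ih S s (fun x => e.symm (π x)) (e.symm.surjective.comp hπsurj) ?_ ?_ ?_
    · intro x y
      rw [hπ, e.symm.map_adj_iff]
    · intro x
      rw [← hs x]
      constructor
      · intro h; rw [← h, e.apply_symm_apply]
      · intro h; rw [h, e.symm_apply_apply]
    · intro x y z w hzw h1 h2 h3
      refine huniq x y (e z) (e w) (fun h => hzw (e.injective h)) ?_ ?_ (e.symm.injective h3)
      · rw [← e.symm.map_adj_iff, e.symm_apply_apply]; exact h1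
      · rw [← e.symm.map_adj_iff, e.symm_apply_apply]; exact h2

end Pool.Agent.SA33
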