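import Pool.Agent.SA33.Lift

set_option autoImplicit false

/-! The twin reduction of a finite tree. -/

namespace Pool.Agent.SA33

open SimpleGraph Pool.Agent.SA97

/-- Two vertices with the same neighbours. -/
def twinSetoid {τ : Type*} (T : SimpleGraph τ) : Setoid τ where
  r x y := ∀ z, T.Adj x z ↔ T.Adj y z
  iseqv := ⟨fun _ _ => Iff.rfl, fun h z => (h z).symm, fun h1 h2 z => (h1 z).trans (h2 z)⟩

/-- The quotient of `T` by the twin relation. -/
def twinQuot {τ : Type*} (T : SimpleGraph τ) : SimpleGraph (Quotient (twinSetoid T)) where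
  Adj a b := ∃ x y, Quotient.mk (twinSetoid T) x = a ∧ Quotient.mk (twinSetoid T) y = b ∧ T.Adj x y
  symm := ⟨by
    rintro a b ⟨x, y, hx, hy, h⟩
    exact ⟨y, x, hy, hx, h.symm⟩⟩
  loopless := ⟨by
    rintro a ⟨x, y, hx, hy, h⟩
    have h1 : ∀ z, T.Adj x z ↔ T.Adj y z := Quotient.exact (hx.trans hy.symm)
    exact T.loopless.irrefl _ ((h1 y).1 h)⟩

theorem twinQuot_adj {τ : Type*} (T : SimpleGraph τ) (x y : τ) :
    T.Adj x y ↔ (twinQuot T).Adj (Quotient.mk (twinSetoid T) x) (Quotient.mk (twinSetoid T) y) := by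
  constructor
  · intro h
    exact ⟨x, y, rfl, rfl, h⟩
  · rintro ⟨x', y', hx, hy, h⟩
    have h1 : ∀ z, T.Adj x' z ↔ T.Adj x z := Quotient.exact hx
    have h2 : ∀ z, T.Adj y' z ↔ T.Adj y z := Quotient.exact hy
    exact ((h2 x).1 ((h1 y').1 h).symm).symm

theorem exists_twinMap {m : ℕ} {T : SimpleGraph (Fin m)} (hT : T.IsTree) :
    ∃ (τ' : Type) (T' : SimpleGraph τ') (π : Fin m → τ'), TwinMap T T' π := by
  refine ⟨Quotient (twinSetoid T), twinQuot T, Quotient.mk (twinSetoid T), hT,
    Quotient.mk_surjective, twinQuot_adj T, ?_⟩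
  intro a b
  obtain ⟨x, rfl⟩ := Quotient.mk_surjective a
  obtain ⟨y, rfl⟩ := Quotient.mk_surjective b
  intro h
  apply Quotient.sound
  intro z
  rw [twinQuot_adj T x z, twinQuot_adj T y z]
  exact h _

/-- A tree whose twin reduction has at most two vertices is a star. -/
theorem TwinMap.star {m : ℕ} {T : SimpleGraph (Fin m)} {τ' : Type} {T' : SimpleGraph τ'}
    {π : Fin m → τ'} (h : TwinMap T T' π) (hm : 2 ≤ m) (h3 : ¬ 3 ≤ Nat.card τ') :
    ∃ c, IsStar T c := by
  classical
  have := h.finite'
  let _ : Fintype τ' := Fintype.ofFinite τ'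
  rw [Nat.card_eq_fintype_card] at h3
  -- an edge
  obtain ⟨v, huv⟩ := exists_adj_of_connected h.tree.connected
    (a := (⟨0, by omega⟩ : Fin m)) (b := ⟨1, by omega⟩) (by simp)
  generalize (⟨0, by omega⟩ : Fin m) = u at huv
  have huv' := (h.adj _ _).1 huv
  have hne : π u ≠ π v := huv'.ne
  have hall : ∀ x, π x = π u ∨ π x = π v := by
    intro x
    by_contra hcon
    push Not at hcon
    apply h3
    have h4 : ({π x, π u, π v} : Finset τ').card = 3 := by
      rw [Finset.card_insert_of_notMem, Finset.card_pair hne]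
      simp [hcon.1, hcon.2]
    have := Finset.card_le_univ ({π x, π u, π v} : Finset τ')
    omega
  have hadj : ∀ x y, T.Adj x y ↔ π x ≠ π y := by
    intro x y
    rw [h.adj]
    constructor
    · intro hh; exact hh.ne
    · intro hh
      rcases hall x with hx | hx <;> rcases hall y with hy | hy
      · exact absurd (hx.trans hy.symm) hh
      · rw [hx, hy]; exact huv'
      · rw [hx, hy]; exact huv'.symm
      · exact absurd (hx.trans hy.symm) hh
  have key : ∀ c, (∀ x, π x = π c → x = c) → (∀ x y, π x ≠ π c → π y ≠ π c → π x = π y) →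
      IsStar T c := by
    intro c hc hc2 x y
    rw [hadj]
    constructor
    · intro hxy
      by_cases hx : x = c
      · left
        refine ⟨hx, ?_⟩
        intro hy
        rw [hx, hy] at hxy
        exact hxy rfl
      · right
        refine ⟨?_, hx⟩
        by_contra hy
        exact hxy (hc2 x y (fun h => hx (hc x h)) (fun h => hy (hc y h)))
    · rintro (⟨hx, hy⟩ | ⟨hy, hx⟩)
      · rw [hx]
        exact fun h => hy (hc y h.symm)
      · rw [hy]
        exact fun h => hx (hc x h)
  by_cases hU : ∀ x, π x = π u → x = u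
  · refine ⟨u, key u hU ?_⟩
    intro x y hx hy
    rcases hall x with h1 | h1
    · exact absurd h1 hx
    · rcases hall y with h2 | h2
      · exact absurd h2 hy
      · rw [h1, h2]
  · by_cases hV : ∀ x, π x = π v → x = v
    · refine ⟨v, key v hV ?_⟩
      intro x y hx hy
      rcases hall x with h1 | h1
      · rcases hall y with h2 | h2
        · rw [h1, h2]
        · exact absurd h2 hy
      · exact absurd h1 hx
    · push Not at hU hV
      obtain ⟨u', hu', hu'2⟩ := hU
      obtain ⟨v', hv', hv'2⟩ := hV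
      exfalso
      apply hv'2
      refine (no_c4 h.tree.isAcyclic (x := v) (y := v') (z := u) (w := u') (Ne.symm hu'2)
        huv.symm ?_ ?_ ?_).symm
      · rw [hadj, hu']; exact hne.symm
      · rw [hadj, hv']; exact hne.symm
      · rw [hadj, hv', hu']; exact hne.symm

/-- Every tree with at least three vertices is a star or has a twin reduction with at least three
vertices. -/
theorem splittable_of_twinReduction {k : ℕ} (hk : 3 ≤ k)
    (H : ∀ (m : ℕ) (T : SimpleGraph (Fin m)) (τ' : Type) (T' : SimpleGraph τ') (π : Fin m → τ'),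
      TwinMap T T' π → 3 ≤ Nat.card τ' → Splittable T k)
    (m : ℕ) (T : SimpleGraph (Fin m)) (hT : T.IsTree) (hm : 3 ≤ m) : Splittable T k := by
  obtain ⟨τ', T', π, h⟩ := exists_twinMap hT
  by_cases h3 : 3 ≤ Nat.card τ'
  · exact H m T τ' T' π h h3
  · obtain ⟨c, hc⟩ := h.star (by omega) h3
    exact splittable_star hc hm hk

end Pool.Agent.SA33
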